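import Mathlib

set_option autoImplicit false

open Set

namespace Pool.Agent.Helper890.TM

/-- `t` is the `r`-largest coordinate at which `w` is nonzero. -/
def IsTop (r : ℕ → ℕ → Prop) (w : ℕ →₀ ℤ) (t : ℕ) : Prop :=
  w t ≠ 0 ∧ ∀ j, w j ≠ 0 → j = t ∨ r j t

section
variable {r : ℕ → ℕ → Prop}

theorem exists_max_finset [IsStrictTotalOrder ℕ r] (s : Finset ℕ) (hs : s.Nonempty) :
    ∃ t ∈ s, ∀ j ∈ s, j = t ∨ r j t := by
  induction hs using Finset.Nonempty.cons_induction with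
  | singleton a => exact ⟨a, by simp, fun j hj => Or.inl (by simpa using hj)⟩
  | cons a s h hs ih =>
    obtain ⟨t, ht, hmax⟩ := ih
    rcases trichotomous_of r a t with hat | hat | hat
    · refine ⟨t, by simp [ht], fun j hj => ?_⟩
      rcases Finset.mem_cons.1 hj with rfl | hj
      · exact Or.inr hat
      · exact hmax j hj
    · subst hat; exact absurd ht h
    · refine ⟨a, by simp, fun j hj => ?_⟩
      rcases Finset.mem_cons.1 hj with rfl | hj
      · exact Or.inl rfl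
      · rcases hmax j hj with rfl | hj'
        · exact Or.inr hat
        · exact Or.inr (trans_of r hj' hat)

theorem exists_top [IsStrictTotalOrder ℕ r] {w : ℕ →₀ ℤ} (hw : w ≠ 0) : ∃ t, IsTop r w t := by
  obtain ⟨t, ht, hmax⟩ := exists_max_finset (r := r) w.support (Finsupp.support_nonempty_iff.2 hw)
  exact ⟨t, Finsupp.mem_support_iff.1 ht, fun j hj => hmax j (Finsupp.mem_support_iff.2 hj)⟩

theorem IsTop.ne_zero {w : ℕ →₀ ℤ} {t : ℕ} (h : IsTop r w t) : w ≠ 0 := by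
  rintro rfl; exact h.1 rfl

theorem IsTop.unique [IsStrictTotalOrder ℕ r] {w : ℕ →₀ ℤ} {t t' : ℕ} (h : IsTop r w t)
    (h' : IsTop r w t') : t = t' := by
  rcases h.2 t' h'.1 with h1 | h1
  · exact h1.symm
  · rcases h'.2 t h.1 with h2 | h2
    · exact h2
    · exact absurd (trans_of r h1 h2) (irrefl_of r t')

theorem IsTop.neg {w : ℕ →₀ ℤ} {t : ℕ} (h : IsTop r w t) : IsTop r (-w) t := by
  refine ⟨by simpa using h.1, fun j hj => h.2 j (by simpa using hj)⟩

theorem IsTop.swap {u v : ℕ →₀ ℤ} {t : ℕ} (h : IsTop r (v - u) t) : IsTop r (u - v) t := by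
  have := h.neg
  rwa [neg_sub] at this

theorem isTop_single (t : ℕ) {z : ℤ} (hz : z ≠ 0) : IsTop r (Finsupp.single t z) t := by
  refine ⟨by simpa using hz, fun j hj => ?_⟩
  by_contra hcon
  push Not at hcon
  exact hj (by rw [Finsupp.single_eq_of_ne hcon.1])

/-- the largest coordinate of a sum when the two tops differ -/
theorem IsTop.add_of_rel [IsStrictTotalOrder ℕ r] {w₁ w₂ : ℕ →₀ ℤ} {t₁ t₂ : ℕ}
    (h₁ : IsTop r w₁ t₁) (h₂ : IsTop r w₂ t₂) (h : r t₁ t₂) :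
    IsTop r (w₁ + w₂) t₂ ∧ (w₁ + w₂) t₂ = w₂ t₂ := by
  have h0 : w₁ t₂ = 0 := by
    by_contra hne
    rcases h₁.2 t₂ hne with h3 | h3
    · subst h3; exact irrefl_of r _ h
    · exact irrefl_of r _ (trans_of r h h3)
  have h1 : (w₁ + w₂) t₂ = w₂ t₂ := by simp [h0]
  refine ⟨⟨by rw [h1]; exact h₂.1, fun j hj => ?_⟩, h1⟩
  by_cases hj2 : w₂ j = 0
  · have hj1 : w₁ j ≠ 0 := by
      intro hj1; apply hj; simp [hj1, hj2]
    rcases h₁.2 j hj1 with rfl | h3
    · exact Or.inr h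
    · exact Or.inr (trans_of r h3 h)
  · exact h₂.2 j hj2

theorem IsTop.add_of_eq {w₁ w₂ : ℕ →₀ ℤ} {t : ℕ}
    (h₁ : IsTop r w₁ t) (h₂ : IsTop r w₂ t) (h : w₁ t + w₂ t ≠ 0) :
    IsTop r (w₁ + w₂) t := by
  refine ⟨by simpa using h, fun j hj => ?_⟩
  by_cases hj2 : w₂ j = 0
  · have hj1 : w₁ j ≠ 0 := by
      intro hj1; apply hj; simp [hj1, hj2]
    exact h₁.2 j hj1
  · exact h₂.2 j hj2

/-- the lexicographic order along `r` (largest coordinate dominating), with sign twists `σ` -/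
def LX (r : ℕ → ℕ → Prop) (σ : ℕ → ℤ) (u v : ℕ →₀ ℤ) : Prop :=
  ∃ t, IsTop r (v - u) t ∧ 0 < σ t * (v - u) t

theorem LX_irrefl {σ : ℕ → ℤ} (u : ℕ →₀ ℤ) : ¬ LX r σ u u := by
  rintro ⟨t, h, -⟩
  apply h.1; simp

theorem LX_iff [IsStrictTotalOrder ℕ r] {σ : ℕ → ℤ} {u v : ℕ →₀ ℤ} {t : ℕ}
    (h : IsTop r (v - u) t) : LX r σ u v ↔ 0 < σ t * (v - u) t := by
  constructor
  · rintro ⟨t', h', h2⟩
    rwa [h.unique h']
  · intro h2; exact ⟨t, h, h2⟩

theorem mul_pos_add {s a b : ℤ} (h1 : 0 < s * a) (h2 : 0 < s * b) : 0 < s * (a + b) := by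
  rw [mul_add]; exact add_pos h1 h2

theorem LX_trans [IsStrictTotalOrder ℕ r] {σ : ℕ → ℤ} {u v w : ℕ →₀ ℤ}
    (h1 : LX r σ u v) (h2 : LX r σ v w) : LX r σ u w := by
  obtain ⟨t₁, ht₁, hp₁⟩ := h1
  obtain ⟨t₂, ht₂, hp₂⟩ := h2
  have hsum : w - u = (v - u) + (w - v) := by abel
  rcases trichotomous_of r t₁ t₂ with h | h | h
  · obtain ⟨h3, h4⟩ := ht₁.add_of_rel ht₂ h
    refine ⟨t₂, by rwa [hsum], ?_⟩
    rw [hsum, h4]; exact hp₂
  · subst h
    have hp := mul_pos_add hp₁ hp₂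
    have hne : (v - u) t₁ + (w - v) t₁ ≠ 0 := by
      intro h0; rw [h0] at hp; simp at hp
    refine ⟨t₁, by rw [hsum]; exact ht₁.add_of_eq ht₂ hne, ?_⟩
    rw [hsum, Finsupp.add_apply]; exact hp
  · obtain ⟨h3, h4⟩ := ht₂.add_of_rel ht₁ h
    rw [add_comm] at h3 h4
    refine ⟨t₁, by rwa [hsum], ?_⟩
    rw [hsum, h4]; exact hp₁

theorem LX_total [IsStrictTotalOrder ℕ r] {σ : ℕ → ℤ} (hσ : ∀ t, σ t ≠ 0) {u v : ℕ →₀ ℤ}
    (h : u ≠ v) : LX r σ u v ∨ LX r σ v u := by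
  obtain ⟨t, ht⟩ := exists_top (r := r) (sub_ne_zero.2 h.symm)
  rcases lt_trichotomy 0 (σ t * (v - u) t) with h1 | h1 | h1
  · exact Or.inl ⟨t, ht, h1⟩
  · exact absurd h1.symm (mul_ne_zero (hσ t) ht.1)
  · refine Or.inr ⟨t, ht.swap, ?_⟩
    have : (u - v) t = - (v - u) t := by simp
    rw [this, mul_neg]; linarith

theorem LX_asymm [IsStrictTotalOrder ℕ r] {σ : ℕ → ℤ} {u v : ℕ →₀ ℤ} (h : LX r σ u v) :
    ¬ LX r σ v u := fun h' => LX_irrefl u (LX_trans h h')

theorem LX_add [IsStrictTotalOrder ℕ r] {σ : ℕ → ℤ} (u v w : ℕ →₀ ℤ) :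
    LX r σ (u + w) (v + w) ↔ LX r σ u v := by
  unfold LX
  have : v + w - (u + w) = v - u := by abel
  rw [this]

/-- Block translations. -/
theorem kshift [IsStrictTotalOrder ℕ r] {u v u' v' : ℕ →₀ ℤ} {t : ℕ}
    (h : IsTop r (v - u) t) (h' : IsTop r (v' - u') t) (he : (v - u) t = (v' - u') t) :
    ∃ g : Equiv.Perm (ℕ →₀ ℤ),
      (∀ w₁ w₂ s, IsTop r (w₂ - w₁) s →
        IsTop r (g w₂ - g w₁) s ∧ (g w₂ - g w₁) s = (w₂ - w₁) s) ∧
      g u = u' ∧ g v = v' ∧ ∀ w, g w = w + (u' - u) ∨ g w = w + (v' - v) := by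
  classical
  -- agreement of the two differences at high coordinates
  have hag : ∀ j, ¬ r j t → (v - u) j = (v' - u') j := by
    intro j hj
    by_cases hjt : j = t
    · subst hjt; exact he
    · have h1 : (v - u) j = 0 := by
        by_contra hne
        rcases h.2 j hne with h2 | h2
        · exact hjt h2
        · exact hj h2
      have h2 : (v' - u') j = 0 := by
        by_contra hne
        rcases h'.2 j hne with h2 | h2
        · exact hjt h2
        · exact hj h2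
      rw [h1, h2]
  let B : Set (ℕ →₀ ℤ) := {w | ∀ j, ¬ r j t → w j = v j}
  let B' : Set (ℕ →₀ ℤ) := {w | ∀ j, ¬ r j t → w j = v' j}
  have hB1 : ∀ w, w ∈ B → w + (v' - v) ∈ B' := by
    intro w hw j hj
    have := hw j hj
    simp only [Finsupp.add_apply, Finsupp.sub_apply]
    rw [this]; ring
  have hB2 : ∀ w, w ∉ B → w + (u' - u) ∉ B' := by
    intro w hw hcon
    apply hw
    intro j hj
    have h1 := hcon j hj
    have h2 := hag j hj
    simp only [Finsupp.add_apply, Finsupp.sub_apply] at h1 h2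
    linarith
  have hB3 : ∀ w, w ∈ B' → w - (v' - v) ∈ B := by
    intro w hw j hj
    have := hw j hj
    simp only [Finsupp.sub_apply]
    rw [this]; ring
  have hB4 : ∀ w, w ∉ B' → w - (u' - u) ∉ B := by
    intro w hw hcon
    apply hw
    intro j hj
    have h1 := hcon j hj
    have h2 := hag j hj
    simp only [Finsupp.sub_apply] at h1 h2
    linarith
  let g : Equiv.Perm (ℕ →₀ ℤ) :=
    { toFun := fun w => if w ∈ B then w + (v' - v) else w + (u' - u)
      invFun := fun w => if w ∈ B' then w - (v' - v) else w - (u' - u)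
      left_inv := by
        intro w
        by_cases hw : w ∈ B
        · simp only [if_pos hw, if_pos (hB1 w hw)]; abel
        · simp only [if_neg hw, if_neg (hB2 w hw)]; abel
      right_inv := by
        intro w
        by_cases hw : w ∈ B'
        · simp only [if_pos hw, if_pos (hB3 w hw)]; abel
        · simp only [if_neg hw, if_neg (hB4 w hw)]; abel }
  have hg1 : ∀ w, w ∈ B → g w = w + (v' - v) := fun w hw => if_pos hw
  have hg2 : ∀ w, w ∉ B → g w = w + (u' - u) := fun w hw => if_neg hw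
  have huB : u ∉ B := by
    intro hu
    have h1 := hu t (irrefl_of r t)
    apply h.1
    simp [h1]
  have hvB : v ∈ B := fun j _ => rfl
  -- the correction term lives below `t`
  have key : ∀ w₁ w₂ s, IsTop r (w₂ - w₁) s → w₁ ∈ B → w₂ ∉ B → ∀ δ : ℕ →₀ ℤ,
      (∀ j, ¬ r j t → δ j = 0) → IsTop r (w₂ - w₁ + δ) s ∧ (w₂ - w₁ + δ) s = (w₂ - w₁) s := by
    intro w₁ w₂ s hs h1 h2 δ hδ
    have h3 : ∃ j, ¬ r j t ∧ w₂ j ≠ v j := by
      by_contra hcon
      push Not at hcon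
      exact h2 (fun j hj => hcon j hj)
    obtain ⟨j, hj1, hj2⟩ := h3
    have hj3 : (w₂ - w₁) j ≠ 0 := by
      rw [Finsupp.sub_apply, h1 j hj1]
      exact sub_ne_zero.2 hj2
    have hst : ¬ r s t := by
      intro hst
      rcases hs.2 j hj3 with h4 | h4
      · subst h4; exact hj1 hst
      · exact hj1 (trans_of r h4 hst)
    have hδs : δ s = 0 := hδ s hst
    have hval : (w₂ - w₁ + δ) s = (w₂ - w₁) s := by
      rw [Finsupp.add_apply, hδs, add_zero]
    refine ⟨⟨by rw [hval]; exact hs.1, fun i hi => ?_⟩, hval⟩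
    by_cases hi1 : (w₂ - w₁) i = 0
    · have hi2 : δ i ≠ 0 := by
        intro hi2; apply hi; rw [Finsupp.add_apply, hi1, hi2, add_zero]
      have hit : r i t := by
        by_contra hcon; exact hi2 (hδ i hcon)
      rcases trichotomous_of r t s with h4 | h4 | h4
      · exact Or.inr (trans_of r hit h4)
      · subst h4; exact Or.inr hit
      · exact absurd h4 hst
    · exact hs.2 i hi1
  refine ⟨g, ?_, ?_, ?_, ?_⟩
  · intro w₁ w₂ s hs
    by_cases h1 : w₁ ∈ B <;> by_cases h2 : w₂ ∈ B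
    · rw [hg1 w₁ h1, hg1 w₂ h2]
      have : w₂ + (v' - v) - (w₁ + (v' - v)) = w₂ - w₁ := by abel
      rw [this]; exact ⟨hs, rfl⟩
    · rw [hg1 w₁ h1, hg2 w₂ h2]
      have : w₂ + (u' - u) - (w₁ + (v' - v)) = w₂ - w₁ + ((u' - u) - (v' - v)) := by abel
      rw [this]
      apply key w₁ w₂ s hs h1 h2
      intro j hj
      have := hag j hj
      simp only [Finsupp.sub_apply] at this ⊢
      linarith
    · rw [hg2 w₁ h1, hg1 w₂ h2]
      have hk := key w₂ w₁ s hs.swap h2 h1 ((u' - u) - (v' - v)) (by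
        intro j hj
        have := hag j hj
        simp only [Finsupp.sub_apply] at this ⊢
        linarith)
      have : w₂ + (v' - v) - (w₁ + (u' - u)) = -(w₁ - w₂ + ((u' - u) - (v' - v))) := by abel
      rw [this]
      refine ⟨hk.1.neg, ?_⟩
      rw [Finsupp.neg_apply, hk.2]
      simp
    · rw [hg2 w₁ h1, hg2 w₂ h2]
      have : w₂ + (u' - u) - (w₁ + (u' - u)) = w₂ - w₁ := by abel
      rw [this]; exact ⟨hs, rfl⟩
  · rw [hg2 u huB]; abel
  · rw [hg1 v hvB]; abel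
  · intro w
    by_cases hw : w ∈ B
    · exact Or.inr (hg1 w hw)
    · exact Or.inl (hg2 w hw)

/-- maps preserving tops preserve every `LX` -/
theorem LX_of_top [IsStrictTotalOrder ℕ r] {σ : ℕ → ℤ} {g : Equiv.Perm (ℕ →₀ ℤ)}
    (hg : ∀ w₁ w₂ s, IsTop r (w₂ - w₁) s →
        IsTop r (g w₂ - g w₁) s ∧ (g w₂ - g w₁) s = (w₂ - w₁) s) (u v : ℕ →₀ ℤ) :
    LX r σ (g u) (g v) ↔ LX r σ u v := by
  by_cases huv : u = v
  · subst huv
    exact ⟨fun h => absurd h (LX_irrefl _), fun h => absurd h (LX_irrefl _)⟩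
  · obtain ⟨t, ht⟩ := exists_top (r := r) (sub_ne_zero.2 (Ne.symm huv))
    obtain ⟨h1, h2⟩ := hg u v t ht
    rw [LX_iff ht, LX_iff h1, h2]

end

end Pool.Agent.Helper890.TM
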