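import Mathlib

set_option autoImplicit false

open Set Topology

namespace Pool.Agent.Helper890.TM

/-- `h` puts the elements of `l` in positions `0, 1, …`. -/
def Pos (h : Equiv.Perm ℕ) (l : List ℕ) : Prop := ∀ i (hi : i < l.length), h (l[i]) = i

/-- some rearrangement of `x` putting `l` in the first positions lies in `U` -/
def Hit {X : Type} (a : Equiv.Perm ℕ → X → X) (l : List ℕ) (U : Set X) (x : X) : Prop :=
  ∃ h, Pos h l ∧ a h x ∈ U

theorem pos_append_iff (h : Equiv.Perm ℕ) (l : List ℕ) (b : ℕ) :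
    Pos h (l ++ [b]) ↔ Pos h l ∧ h b = l.length := by
  constructor
  · intro hp
    refine ⟨fun i hi => ?_, ?_⟩
    · have := hp i (by simp; omega)
      rwa [List.getElem_append_left hi] at this
    · have := hp l.length (by simp)
      simpa using this
  · rintro ⟨h1, h2⟩ i hi
    rw [List.length_append, List.length_singleton] at hi
    rcases Nat.lt_succ_iff_lt_or_eq.1 hi with h3 | h3
    · rw [List.getElem_append_left h3]; exact h1 i h3
    · subst h3; simpa using h2

theorem Pos.mono {h : Equiv.Perm ℕ} {l l' : List ℕ} (hl : l <+: l') (hp : Pos h l') :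
    Pos h l := by
  obtain ⟨t, rfl⟩ := hl
  intro i hi
  have := hp i (by simp; omega)
  rwa [List.getElem_append_left hi] at this

theorem exists_pos (l : List ℕ) (hl : l.Nodup) : ∃ h, Pos h l := by
  induction l using List.reverseRecOn with
  | nil => exact ⟨1, fun i hi => by simp at hi⟩
  | append_singleton l b ih =>
    have hl' : l.Nodup := (List.nodup_append.1 hl).1
    have hb : b ∉ l := by
      intro hb
      have := (List.nodup_append.1 hl).2.2
      exact this b hb b (by simp) rfl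
    obtain ⟨h, hp⟩ := ih hl'
    refine ⟨Equiv.swap (h b) l.length * h, ?_⟩
    rw [pos_append_iff]
    refine ⟨fun i hi => ?_, ?_⟩
    · rw [Equiv.Perm.mul_apply, hp i hi]
      apply Equiv.swap_apply_of_ne_of_ne
      · intro h2
        apply hb
        have h3 : h (l[i]) = h b := by rw [hp i hi, h2]
        rw [← h.injective h3]
        exact List.getElem_mem hi
      · omega
    · rw [Equiv.Perm.mul_apply]; exact Equiv.swap_apply_left _ _

theorem limit {X : Type} [TopologicalSpace X] [PolishSpace X] (a : Equiv.Perm ℕ → X → X)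
    (ha1 : ∀ x, a 1 x = x)
    (hmul : ∀ g h x, a (g * h) x = a g (a h x)) (hcont : ∀ g, Continuous (a g))
    (hid : ∀ z : X, ∀ O ∈ 𝓝 z, ∃ j : ℕ, ∃ U : Set X, IsOpen U ∧ z ∈ U ∧ ∀ g : Equiv.Perm ℕ,
      (∀ i < j, g i = i) → ∀ u ∈ U, a g u ∈ O)
    (x : X) (C : Set ℕ) (p : ℕ) (hp : p ∈ C)
    (hP : ∀ l : List ℕ, l.Nodup → (∀ i ∈ l, i ∈ C) → p ∈ l → ∀ U, IsOpen U → Hit a l U x →
      ∃ b ∈ C, b ∉ l ∧ Hit a (l ++ [b]) U x) :
    ∃ f : ℕ → ℕ, Function.Injective f ∧ (∀ i, f i ∈ C) ∧ (∀ c ∈ C, ∃ i, f i = c) ∧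
      ∃ y : X, ∀ g : Equiv.Perm ℕ, a g x = x → (∀ i, g i ∈ C ↔ i ∈ C) →
        ∀ g' : Equiv.Perm ℕ, (∀ i, f (g' i) = g (f i)) → a g' y = y := by
  classical
  letI := TopologicalSpace.upgradeIsCompletelyMetrizable X
  let Good : List ℕ → Prop := fun l => l.Nodup ∧ (∀ i ∈ l, i ∈ C) ∧ p ∈ l
  have ext1 : ∀ (U : Set X), IsOpen U → ∀ m l, Good l → Hit a l U x →
      ∃ l', Good l' ∧ l <+: l' ∧ m ≤ l'.length ∧ Hit a l' U x := by
    intro U hU m
    induction m with
    | zero => intro l hl hH; exact ⟨l, hl, List.prefix_refl l, Nat.zero_le _, hH⟩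
    | succ m ih =>
      intro l hl hH
      obtain ⟨l', hl', hpre, hlen, hH'⟩ := ih l hl hH
      obtain ⟨b, hb1, hb2, hb3⟩ := hP l' hl'.1 hl'.2.1 hl'.2.2 U hU hH'
      refine ⟨l' ++ [b], ⟨?_, ?_, ?_⟩, ?_, ?_, hb3⟩
      · rw [List.nodup_append]
        refine ⟨hl'.1, List.nodup_singleton b, ?_⟩
        intro c hc d hd hcd
        rw [List.mem_singleton] at hd
        subst hd; subst hcd
        exact hb2 hc
      · intro i hi
        rcases List.mem_append.1 hi with h | h
        · exact hl'.2.1 i h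
        · rw [List.mem_singleton] at h; subst h; exact hb1
      · exact List.mem_append_left _ hl'.2.2
      · exact hpre.trans (List.prefix_append l' [b])
      · simp; omega
  have ext2 : ∀ l, Good l → ∀ ε > 0, ∃ l', Good l' ∧ l <+: l' ∧
      ∀ h h', Pos h l' → Pos h' l' → dist (a h x) (a h' x) ≤ ε := by
    intro l hl ε hε
    obtain ⟨h0, hh0⟩ := exists_pos l hl.1
    set z := a h0 x with hz
    obtain ⟨j, U, hU, hzU, hj⟩ := hid z (Metric.ball z (ε / 2)) (Metric.ball_mem_nhds z (by linarith))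
    obtain ⟨l', hl', hpre, hlen, h1, hh1, hh1U⟩ := ext1 U hU j l hl ⟨h0, hh0, hzU⟩
    refine ⟨l', hl', hpre, ?_⟩
    have key : ∀ h, Pos h l' → dist (a h x) z < ε / 2 := by
      intro h hh
      have h2 : a h x = a (h * h1⁻¹) (a h1 x) := by
        rw [← hmul]; congr 1; group
      rw [h2]
      apply hj _ _ _ hh1U
      intro i hi
      have hil : i < l'.length := by omega
      rw [Equiv.Perm.mul_apply]
      have h3 : h1⁻¹ i = l'[i] := by
        rw [Equiv.Perm.inv_eq_iff_eq]; exact (hh1 i hil).symm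
      rw [h3, hh i hil]
    intro h h' hh hh'
    have h3 := key h hh
    have h4 := key h' hh'
    have h5 := dist_triangle_right (a h x) (a h' x) z
    linarith
  have ext3 : ∀ l, Good l → ∀ c ∈ C, ∃ l', Good l' ∧ l <+: l' ∧ c ∈ l' := by
    intro l hl c hc
    by_cases hcl : c ∈ l
    · exact ⟨l, hl, List.prefix_refl l, hcl⟩
    · refine ⟨l ++ [c], ⟨?_, ?_, List.mem_append_left _ hl.2.2⟩, List.prefix_append l [c], by simp⟩
      · rw [List.nodup_append]
        refine ⟨hl.1, List.nodup_singleton c, ?_⟩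
        intro b hb d hd hbd
        rw [List.mem_singleton] at hd
        subst hd; subst hbd
        exact hcl hb
      · intro i hi
        rcases List.mem_append.1 hi with h | h
        · exact hl.2.1 i h
        · rw [List.mem_singleton] at h; subst h; exact hc
  have step : ∀ n : ℕ, ∀ l, Good l → ∃ l', Good l' ∧ l <+: l' ∧
      (∀ h h', Pos h l' → Pos h' l' → dist (a h x) (a h' x) ≤ 1 / ((n : ℝ) + 1)) ∧
      (n ∈ C → n ∈ l') ∧ n + 1 ≤ l'.length := by
    intro n l hl
    have h1 : ∃ l1, Good l1 ∧ l <+: l1 ∧ (n ∈ C → n ∈ l1) := by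
      by_cases hn : n ∈ C
      · obtain ⟨l1, h1, h2, h3⟩ := ext3 l hl n hn
        exact ⟨l1, h1, h2, fun _ => h3⟩
      · exact ⟨l, hl, List.prefix_refl l, fun h => absurd h hn⟩
    obtain ⟨l1, hl1, hpre1, hn1⟩ := h1
    obtain ⟨h0, hh0⟩ := exists_pos l1 hl1.1
    obtain ⟨l2, hl2, hpre2, hlen2, -⟩ := ext1 univ isOpen_univ (n + 1) l1 hl1 ⟨h0, hh0, mem_univ _⟩
    obtain ⟨l3, hl3, hpre3, hd3⟩ := ext2 l2 hl2 (1 / ((n : ℝ) + 1)) (by positivity)
    refine ⟨l3, hl3, hpre1.trans (hpre2.trans hpre3), hd3, fun hn => ?_, ?_⟩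
    · exact (hpre2.trans hpre3).subset (hn1 hn)
    · exact hlen2.trans hpre3.length_le
  have hbase : Good [p] := ⟨List.nodup_singleton p, by simpa using hp, by simp⟩
  let st : ℕ → {l : List ℕ // Good l} := fun n =>
    Nat.rec ⟨[p], hbase⟩ (fun n l => ⟨(step n l.1 l.2).choose, (step n l.1 l.2).choose_spec.1⟩) n
  have hst : ∀ n, (st n).1 <+: (st (n + 1)).1 ∧
      (∀ h h', Pos h (st (n + 1)).1 → Pos h' (st (n + 1)).1 →
        dist (a h x) (a h' x) ≤ 1 / ((n : ℝ) + 1)) ∧
      (n ∈ C → n ∈ (st (n + 1)).1) ∧ n + 1 ≤ (st (n + 1)).1.length := by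
    intro n
    exact (step n (st n).1 (st n).2).choose_spec.2
  have hmonoS : ∀ n m, n ≤ m → (st n).1 <+: (st m).1 := by
    intro n m hnm
    induction m, hnm using Nat.le_induction with
    | base => exact List.prefix_refl _
    | succ m hm ih => exact ih.trans (hst m).1
  let f : ℕ → ℕ := fun i => ((st (i + 1)).1[i]?).getD 0
  have hget : ∀ n m i, n ≤ m → i < (st n).1.length → (st m).1[i]? = (st n).1[i]? := by
    intro n m i hnm hi
    obtain ⟨t, ht⟩ := hmonoS n m hnm
    rw [← ht, List.getElem?_append_left hi]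
  have hlen : ∀ i, i < (st (i + 1)).1.length := fun i => (hst i).2.2.2
  have hf : ∀ n i (hi : i < (st n).1.length), f i = (st n).1[i] := by
    intro n i hi
    have h1 : (st (i + 1)).1[i]? = (st n).1[i]? := by
      rcases le_total n (i + 1) with h | h
      · exact hget n (i + 1) i h hi
      · exact (hget (i + 1) n i h (hlen i)).symm
    change ((st (i + 1)).1[i]?).getD 0 = _
    rw [h1, List.getElem?_eq_getElem hi]; rfl
  have hfC : ∀ i, f i ∈ C := by
    intro i
    rw [hf (i + 1) i (hlen i)]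
    exact (st (i + 1)).2.2.1 _ (List.getElem_mem _)
  have hfinj : Function.Injective f := by
    intro i j hij
    have hi : i < (st (max i j + 1)).1.length := by
      have := (hst (max i j)).2.2.2
      omega
    have hj : j < (st (max i j + 1)).1.length := by
      have := (hst (max i j)).2.2.2
      omega
    rw [hf (max i j + 1) i hi, hf (max i j + 1) j hj] at hij
    exact (List.Nodup.getElem_inj_iff (st (max i j + 1)).2.1).1 hij
  have hfsurj : ∀ c ∈ C, ∃ i, f i = c := by
    intro c hc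
    have := (hst c).2.2.1 hc
    obtain ⟨i, hi, hic⟩ := List.mem_iff_getElem.1 this
    exact ⟨i, by rw [hf (c + 1) i hi, hic]⟩
  -- the limit point
  have hex : ∀ n, ∃ h, Pos h (st n).1 := fun n => exists_pos _ (st n).2.1
  choose h hh using hex
  have hcau : CauchySeq (fun n => a (h n) x) := by
    rw [Metric.cauchySeq_iff']
    intro ε hε
    obtain ⟨n, hn⟩ := exists_nat_one_div_lt hε
    refine ⟨n + 1, fun m hm => ?_⟩
    have h1 := (hst n).2.1 (h m) (h (n + 1)) ((hh m).mono (hmonoS _ _ hm)) (hh (n + 1))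
    exact lt_of_le_of_lt h1 hn
  obtain ⟨y, hy⟩ := cauchySeq_tendsto_of_complete hcau
  refine ⟨f, hfinj, hfC, hfsurj, y, ?_⟩
  intro g hg hgC g' hg'
  have hlim : Filter.Tendsto (fun n => a g' (a (h n) x)) Filter.atTop (𝓝 (a g' y)) :=
    (hcont g').continuousAt.tendsto.comp hy
  have hd : Filter.Tendsto (fun n => dist (a g' (a (h n) x)) (a (h n) x)) Filter.atTop
      (𝓝 (dist (a g' y) y)) := hlim.dist hy
  have hle : ∀ m : ℕ, dist (a g' y) y ≤ 1 / ((m : ℝ) + 1) := by
    intro m
    apply le_of_tendsto hd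
    -- large `n`
    obtain ⟨N, hN⟩ : ∃ N, ∀ i < (st (m + 1)).1.length, (g'⁻¹ : Equiv.Perm ℕ) i < N := by
      refine ⟨(Finset.range (st (m + 1)).1.length).sup (fun i => (g'⁻¹ : Equiv.Perm ℕ) i) + 1, ?_⟩
      intro i hi
      have := Finset.le_sup (f := fun i => (g'⁻¹ : Equiv.Perm ℕ) i) (Finset.mem_range.2 hi)
      exact Nat.lt_succ_of_le this
    filter_upwards [Filter.eventually_ge_atTop (max (m + 1) (N + 1))] with n hn
    have hnm : m + 1 ≤ n := le_trans (le_max_left _ _) hn
    have hnN : N + 1 ≤ n := le_trans (le_max_right _ _) hn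
    have h1 : a g' (a (h n) x) = a (g' * h n * g⁻¹) x := by
      have h2 : a (g' * h n * g⁻¹) x = a (g' * h n * g⁻¹) (a g x) := by rw [hg]
      rw [h2, ← hmul, ← hmul]
      congr 1
      group
    rw [h1]
    apply (hst m).2.1
    · intro i hi
      set i' := (g'⁻¹ : Equiv.Perm ℕ) i with hi'
      have hgi' : g' i' = i := by rw [hi']; simp
      have hfi : (st (m + 1)).1[i] = g (f i') := by
        rw [← hg', hgi', hf (m + 1) i hi]
      have hginv : (g⁻¹ : Equiv.Perm ℕ) (g (f i')) = f i' := by simp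
      rw [Equiv.Perm.mul_apply, Equiv.Perm.mul_apply, hfi, hginv]
      have hi'N : i' < N := hN i hi
      have hi'len : i' < (st n).1.length := by
        have h3 := hlen i'
        have h4 := (hmonoS (i' + 1) n (by omega)).length_le
        omega
      rw [hf n i' hi'len, hh n i' hi'len, hgi']
    · exact (hh n).mono (hmonoS _ _ hnm)
  have h0 : dist (a g' y) y ≤ 0 := by
    apply le_of_forall_pos_le_add
    intro ε hε
    obtain ⟨n, hn⟩ := exists_nat_one_div_lt hε
    have := hle n
    linarith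
  exact dist_le_zero.1 h0

end Pool.Agent.Helper890.TM
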