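import Pool.Agent.Helper890.TM.Bdd
import Pool.Agent.Helper890.TM.Lex
import Pool.Agent.Helper890.TM.Limit

set_option autoImplicit false

open Set Topology MeasureTheory

namespace Pool.Agent.Helper890.TM

/-- pairs of mutually inverse maps `ℕ → ℕ` -/
def GG : Set ((ℕ → ℕ) × (ℕ → ℕ)) := {q | (∀ i, q.1 (q.2 i) = i) ∧ ∀ i, q.2 (q.1 i) = i}

theorem continuous_ev (i : ℕ) : Continuous (fun q : (ℕ → ℕ) × (ℕ → ℕ) => q.1 (q.2 i)) := by
  have h1 : Continuous (fun q : (ℕ → ℕ) × ℕ => q.1 q.2) := by
    rw [continuous_prod_of_discrete_right]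
    intro b
    exact continuous_apply b
  exact h1.comp (continuous_fst.prodMk ((continuous_apply i).comp continuous_snd))

theorem continuous_ev' (i : ℕ) : Continuous (fun q : (ℕ → ℕ) × (ℕ → ℕ) => q.2 (q.1 i)) :=
  (continuous_ev i).comp continuous_swap

theorem isClosed_GG : IsClosed GG := by
  have h1 : IsClosed {q : (ℕ → ℕ) × (ℕ → ℕ) | ∀ i, q.1 (q.2 i) = i} := by
    rw [Set.ofPred_forall]
    exact isClosed_iInter fun i => isClosed_eq (continuous_ev i) continuous_const
  have h2 : IsClosed {q : (ℕ → ℕ) × (ℕ → ℕ) | ∀ i, q.2 (q.1 i) = i} := by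
    rw [Set.ofPred_forall]
    exact isClosed_iInter fun i => isClosed_eq (continuous_ev' i) continuous_const
  exact h1.inter h2

instance : PolishSpace GG := isClosed_GG.polishSpace

/-- the permutation of a pair -/
def toPerm (q : GG) : Equiv.Perm ℕ := ⟨q.1.1, q.1.2, q.2.2, q.2.1⟩

theorem toPerm_surj (g : Equiv.Perm ℕ) : ∃ q : GG, toPerm q = g :=
  ⟨⟨(g, g.symm), ⟨fun i => g.apply_symm_apply i, fun i => g.symm_apply_apply i⟩⟩, rfl⟩

/-- pointwise convergence -/
abbrev permTop : TopologicalSpace (Equiv.Perm ℕ) :=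
  TopologicalSpace.induced (fun g : Equiv.Perm ℕ => (⇑g : ℕ → ℕ)) inferInstance

theorem continuous_toPerm : @Continuous GG (Equiv.Perm ℕ) _ permTop toPerm :=
  continuous_induced_rng.2 (continuous_fst.comp continuous_subtype_val)

theorem analytic_inter {α : Type} [TopologicalSpace α] [T2Space α] {s t : Set α}
    (hs : AnalyticSet s) (ht : AnalyticSet t) : AnalyticSet (s ∩ t) := by
  have : s ∩ t = ⋂ b : Bool, cond b s t := by
    ext x; simp [Bool.forall_bool, and_comm]
  rw [this]
  apply AnalyticSet.iInter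
  intro b
  cases b
  · exact ht
  · exact hs

theorem analytic_union {α : Type} [TopologicalSpace α] {s t : Set α}
    (hs : AnalyticSet s) (ht : AnalyticSet t) : AnalyticSet (s ∪ t) := by
  have : s ∪ t = ⋃ b : Bool, cond b s t := by
    ext x; simp [Bool.exists_bool, or_comm]
  rw [this]
  apply AnalyticSet.iUnion
  intro b
  cases b
  · exact ht
  · exact hs

theorem analytic_stab {Y X : Type} [TopologicalSpace Y] [PolishSpace Y] [TopologicalSpace X]
    [PolishSpace X] (a : Equiv.Perm ℕ → X → X)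
    (hJ : @Continuous (Equiv.Perm ℕ × X) X (@instTopologicalSpaceProd _ _ permTop _) _
      (fun p => a p.1 p.2)) (i j k l : ℕ) :
    AnalyticSet {p : Y × X | ∃ g : Equiv.Perm ℕ, a g p.2 = p.2 ∧ g i = k ∧ g j = l} := by
  have hc : Continuous (fun z : GG × (Y × X) => a (toPerm z.1) z.2.2) := by
    letI : TopologicalSpace (Equiv.Perm ℕ) := permTop
    exact hJ.comp ((continuous_toPerm.comp continuous_fst).prodMk
      (continuous_snd.comp continuous_snd))
  have hcl : IsClosed {z : GG × (Y × X) | a (toPerm z.1) z.2.2 = z.2.2 ∧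
      z.1.1.1 i = k ∧ z.1.1.1 j = l} := by
    refine IsClosed.inter (isClosed_eq hc (continuous_snd.comp continuous_snd)) (IsClosed.inter ?_ ?_)
    · exact isClosed_eq ((continuous_apply i).comp
        (continuous_fst.comp (continuous_subtype_val.comp continuous_fst))) continuous_const
    · exact isClosed_eq ((continuous_apply j).comp
        (continuous_fst.comp (continuous_subtype_val.comp continuous_fst))) continuous_const
  have := hcl.analyticSet.image_of_continuous continuous_snd
  convert this using 1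
  ext p
  constructor
  · rintro ⟨g, h1, h2, h3⟩
    obtain ⟨q, rfl⟩ := toPerm_surj g
    exact ⟨(q, p), ⟨h1, h2, h3⟩, rfl⟩
  · rintro ⟨⟨q, p'⟩, ⟨h1, h2, h3⟩, rfl⟩
    exact ⟨toPerm q, h1, h2, h3⟩

instance polishCodes : PolishSpace (ℕ × ℕ → Bool) := by constructor

theorem meas_rel {Y : Type} [MeasurableSpace Y] {c : Y → (ℕ × ℕ → Bool)} (hc : Measurable c)
    (i j : ℕ) : Measurable (fun y => rel (c y) i j) := by
  have : Measurable (fun y => c y (i, j)) := (measurable_pi_apply (i, j)).comp hc
  exact measurableSet_setOf.1 (this (measurableSet_singleton true))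

theorem meas_top {Y : Type} [MeasurableSpace Y] {c : Y → (ℕ × ℕ → Bool)} (hc : Measurable c)
    (w : ℕ →₀ ℤ) (t : ℕ) : Measurable (fun y => IsTop (rel (c y)) w t) := by
  unfold IsTop
  exact measurable_const.and (Measurable.forall fun j => measurable_const.imp
    (measurable_const.or (meas_rel hc j t)))

theorem meas_sto {Y : Type} [MeasurableSpace Y] {c : Y → (ℕ × ℕ → Bool)} (hc : Measurable c) :
    Measurable (fun y => IsStrictTotalOrder ℕ (rel (c y))) := by
  have : (fun y => IsStrictTotalOrder ℕ (rel (c y))) = fun y =>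
      (∀ i j, ¬ rel (c y) i j → ¬ rel (c y) j i → i = j) ∧ (∀ i, ¬ rel (c y) i i) ∧
      (∀ i j k, rel (c y) i j → rel (c y) j k → rel (c y) i k) := by
    funext y
    apply propext
    constructor
    · intro h
      refine ⟨fun i j h1 h2 => ?_, fun i => irrefl_of _ i, fun i j k => trans_of _⟩
      rcases trichotomous_of (rel (c y)) i j with h3 | h3 | h3
      · exact absurd h3 h1
      · exact h3
      · exact absurd h3 h2
    · rintro ⟨h1, h2, h3⟩
      haveI : Std.Trichotomous (rel (c y)) := ⟨h1⟩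
      haveI : Std.Irrefl (rel (c y)) := ⟨h2⟩
      haveI : IsTrans ℕ (rel (c y)) := ⟨h3⟩
      haveI : IsStrictOrder ℕ (rel (c y)) := {}
      exact {}
  rw [this]
  refine Measurable.and ?_ (Measurable.and ?_ ?_)
  · exact Measurable.forall fun i => Measurable.forall fun j =>
      (meas_rel hc i j).not.imp ((meas_rel hc j i).not.imp measurable_const)
  · exact Measurable.forall fun i => (meas_rel hc i i).not
  · exact Measurable.forall fun i => Measurable.forall fun j => Measurable.forall fun k =>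
      (meas_rel hc i j).imp ((meas_rel hc j k).imp (meas_rel hc i k))

theorem isOpen_hit {X : Type} [TopologicalSpace X] (a : Equiv.Perm ℕ → X → X)
    (hcont : ∀ g, Continuous (a g)) (l : List ℕ) (U : Set X) (hU : IsOpen U) :
    IsOpen {x | Hit a l U x} := by
  have : {x | Hit a l U x} = ⋃ h : {h : Equiv.Perm ℕ // Pos h l}, a h.1 ⁻¹' U := by
    ext x
    simp only [Hit, mem_setOf_eq, mem_iUnion, mem_preimage]
    constructor
    · rintro ⟨h, h1, h2⟩; exact ⟨⟨h, h1⟩, h2⟩
    · rintro ⟨⟨h, h1⟩, h2⟩; exact ⟨h, h1, h2⟩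
  rw [this]
  exact isOpen_iUnion fun h => hU.preimage (hcont h.1)

/-- the pair `(b, t)` is a candidate: `b` is new, the extended list is hit and `t` is the top of
`E b` -/
def Cand {X : Type} (a : Equiv.Perm ℕ → X → X) (E : ℕ ≃ (ℕ →₀ ℤ)) (U : Set X) (l : List ℕ)
    (c : ℕ × ℕ → Bool) (x : X) (b t : ℕ) : Prop :=
  b ∉ l ∧ Hit a (l ++ [b]) U x ∧ IsTop (rel c) (E b) t

/-- the pairs -/
def PP {X : Type} [TopologicalSpace X] [PolishSpace X] (a : Equiv.Perm ℕ → X → X)
    (E : ℕ ≃ (ℕ →₀ ℤ)) : Set ((ℕ × ℕ → Bool) × X) :=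
  {p | IsStrictTotalOrder ℕ (rel p.1) ∧
    (∀ i j k l t, IsTop (rel p.1) (E j - E i) t → IsTop (rel p.1) (E l - E k) t →
      (E j - E i) t = (E l - E k) t → ∃ g : Equiv.Perm ℕ, a g p.2 = p.2 ∧ g i = k ∧ g j = l) ∧
    (∀ (U : TopologicalSpace.countableBasis X) (l : List ℕ),
      (∃ b t, Cand a E U.1 l p.1 p.2 b t) → ∃ b t, Cand a E U.1 l p.1 p.2 b t ∧
        ∀ b' t', Cand a E U.1 l p.1 p.2 b' t' → ¬ rel p.1 t' t)}

theorem analytic_PP {X : Type} [TopologicalSpace X] [PolishSpace X] (a : Equiv.Perm ℕ → X → X)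
    (E : ℕ ≃ (ℕ →₀ ℤ))
    (hJ : @Continuous (Equiv.Perm ℕ × X) X (@instTopologicalSpaceProd _ _ permTop _) _
      (fun p => a p.1 p.2)) (hcont : ∀ g, Continuous (a g)) :
    AnalyticSet (PP a E) := by
  borelize X
  have hfst : Measurable (fun p : (ℕ × ℕ → Bool) × X => p.1) := measurable_fst
  have h1 : AnalyticSet {p : (ℕ × ℕ → Bool) × X | IsStrictTotalOrder ℕ (rel p.1)} :=
    (measurableSet_setOf.2 (meas_sto hfst)).analyticSet
  have h2 : AnalyticSet {p : (ℕ × ℕ → Bool) × X | ∀ i j k l t,
      IsTop (rel p.1) (E j - E i) t → IsTop (rel p.1) (E l - E k) t →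
      (E j - E i) t = (E l - E k) t → ∃ g : Equiv.Perm ℕ, a g p.2 = p.2 ∧ g i = k ∧ g j = l} := by
    have : {p : (ℕ × ℕ → Bool) × X | ∀ i j k l t,
      IsTop (rel p.1) (E j - E i) t → IsTop (rel p.1) (E l - E k) t →
      (E j - E i) t = (E l - E k) t → ∃ g : Equiv.Perm ℕ, a g p.2 = p.2 ∧ g i = k ∧ g j = l} =
      ⋂ i, ⋂ j, ⋂ k, ⋂ l, ⋂ t, ({p : (ℕ × ℕ → Bool) × X | ¬ (IsTop (rel p.1) (E j - E i) t ∧
        IsTop (rel p.1) (E l - E k) t ∧ (E j - E i) t = (E l - E k) t)} ∪
        {p : (ℕ × ℕ → Bool) × X | ∃ g : Equiv.Perm ℕ, a g p.2 = p.2 ∧ g i = k ∧ g j = l}) := by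
      ext p
      simp only [mem_setOf_eq, mem_iInter, mem_union]
      constructor
      · intro h i j k l t
        by_cases hh : (IsTop (rel p.1) (E j - E i) t ∧
          IsTop (rel p.1) (E l - E k) t ∧ (E j - E i) t = (E l - E k) t)
        · exact Or.inr (h i j k l t hh.1 hh.2.1 hh.2.2)
        · exact Or.inl hh
      · intro h i j k l t h3 h4 h5
        rcases h i j k l t with h6 | h6
        · exact absurd ⟨h3, h4, h5⟩ h6
        · exact h6
    rw [this]
    refine AnalyticSet.iInter fun i => AnalyticSet.iInter fun j => AnalyticSet.iInter fun k =>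
      AnalyticSet.iInter fun l => AnalyticSet.iInter fun t => analytic_union ?_
        (analytic_stab a hJ i j k l)
    refine MeasurableSet.analyticSet (measurableSet_setOf.2 (Measurable.not ?_))
    exact (meas_top hfst _ _).and ((meas_top hfst _ _).and measurable_const)
  have hC : ∀ (U : TopologicalSpace.countableBasis X) (l : List ℕ) (b t : ℕ),
      Measurable (fun p : (ℕ × ℕ → Bool) × X => Cand a E U.1 l p.1 p.2 b t) := by
    intro U l b t
    refine measurable_const.and (Measurable.and ?_ (meas_top hfst _ _))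
    have hU : IsOpen U.1 := TopologicalSpace.isOpen_of_mem_countableBasis U.2
    have := (isOpen_hit a hcont (l ++ [b]) U.1 hU).measurableSet
    exact (measurableSet_setOf.1 this).comp measurable_snd
  have h3 : AnalyticSet {p : (ℕ × ℕ → Bool) × X |
      (∀ (U : TopologicalSpace.countableBasis X) (l : List ℕ),
      (∃ b t, Cand a E U.1 l p.1 p.2 b t) → ∃ b t, Cand a E U.1 l p.1 p.2 b t ∧
        ∀ b' t', Cand a E U.1 l p.1 p.2 b' t' → ¬ rel p.1 t' t)} := by
    refine MeasurableSet.analyticSet (measurableSet_setOf.2 ?_)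
    refine Measurable.forall fun U => Measurable.forall fun l => Measurable.imp ?_ ?_
    · exact Measurable.exists fun b => Measurable.exists fun t => hC U l b t
    · exact Measurable.exists fun b => Measurable.exists fun t => (hC U l b t).and
        (Measurable.forall fun b' => Measurable.forall fun t' =>
          (hC U l b' t').imp (meas_rel hfst t' t).not)
  exact analytic_inter h1 (analytic_inter h2 h3)

end Pool.Agent.Helper890.TM
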