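import Pool.Agent.Helper890.TM.Lex

set_option autoImplicit false

open Set Ordinal

namespace Pool.Agent.Helper890.TM

/-- the lexicographic relation on integer valued functions of ordinals -/
def LO (f g : Ordinal.{0} → ℤ) : Prop := ∃ β : Ordinal.{0}, f β < g β ∧
  ∀ γ : Ordinal.{0}, β < γ → f γ = g γ

/-- finitely supported, below `α` -/
def SP (α : Ordinal.{0}) (f : Ordinal.{0} → ℤ) : Prop :=
  (∀ β : Ordinal.{0}, f β ≠ 0 → β < α) ∧ (Function.support f).Finite

theorem LO_irrefl (f : Ordinal.{0} → ℤ) : ¬ LO f f := by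
  rintro ⟨β, h, -⟩; exact lt_irrefl _ h

theorem LO_trans {f g h : Ordinal.{0} → ℤ} (h1 : LO f g) (h2 : LO g h) : LO f h := by
  obtain ⟨β, hβ, hβ'⟩ := h1
  obtain ⟨γ, hγ, hγ'⟩ := h2
  rcases lt_trichotomy β γ with h | h | h
  · exact ⟨γ, by rw [hβ' γ h]; exact hγ, fun δ hδ => by rw [hβ' δ (h.trans hδ), hγ' δ hδ]⟩
  · subst h
    exact ⟨β, hβ.trans hγ, fun δ hδ => by rw [hβ' δ hδ, hγ' δ hδ]⟩
  · exact ⟨β, by rw [← hγ' β h]; exact hβ, fun δ hδ => by rw [hβ' δ hδ, hγ' δ (h.trans hδ)]⟩

theorem LO_total {α : Ordinal.{0}} {f g : Ordinal.{0} → ℤ} (hf : SP α f) (hg : SP α g)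
    (h : f ≠ g) : LO f g ∨ LO g f := by
  have hfin : {β | f β ≠ g β}.Finite := by
    refine (hf.2.union hg.2).subset ?_
    intro β hβ
    by_contra hcon
    simp only [mem_union, Function.mem_support, not_or, not_not] at hcon
    exact hβ (by rw [hcon.1, hcon.2])
  have hne : {β | f β ≠ g β}.Nonempty := by
    by_contra hcon
    rw [not_nonempty_iff_eq_empty] at hcon
    apply h
    funext β
    by_contra hb
    have : β ∈ {β | f β ≠ g β} := hb
    rw [hcon] at this
    exact this
  obtain ⟨β, hβ, hmax⟩ := Set.exists_max_image _ id hfin hne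
  have hup : ∀ γ, β < γ → f γ = g γ := by
    intro γ hγ
    by_contra hcon
    exact absurd (hmax γ hcon) (not_le.2 hγ)
  rcases lt_or_gt_of_ne (show f β ≠ g β from hβ) with h1 | h1
  · exact Or.inl ⟨β, h1, hup⟩
  · exact Or.inr ⟨β, h1, fun γ hγ => (hup γ hγ).symm⟩

theorem LO_add (f g h : Ordinal.{0} → ℤ) : LO (f + h) (g + h) ↔ LO f g := by
  unfold LO
  simp

/-- the additive group of finitely supported functions below `α` -/
def HG (α : Ordinal.{0}) : AddSubgroup (Ordinal.{0} → ℤ) where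
  carrier := {f | SP α f}
  zero_mem' := ⟨fun β h => absurd rfl h, by simp⟩
  add_mem' := by
    intro f g hf hg
    refine ⟨fun β h => ?_, (hf.2.union hg.2).subset (Function.support_add f g)⟩
    by_cases h1 : f β = 0
    · apply hg.1
      intro h2
      apply h
      rw [Pi.add_apply, h1, h2, add_zero]
    · exact hf.1 β h1
  neg_mem' := by
    intro f hf
    refine ⟨fun β h => hf.1 β (by simpa using h), ?_⟩
    have : Function.support (-f) = Function.support f := Function.support_neg f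
    rw [this]; exact hf.2

/-- codes of orders that come from an ordered group structure -/
def IsGrp (x : ℕ × ℕ → Bool) : Prop :=
  ∃ (Z : Type 1) (_ : AddCommGroup Z) (R : Z → Z → Prop) (e : ℕ ≃ Z),
    (∀ u, ¬ R u u) ∧ (∀ u v w, R u v → R v w → R u w) ∧ (∀ u v, u ≠ v → R u v ∨ R v u) ∧
    (∀ u v w, R (u + w) (v + w) ↔ R u v) ∧ ∀ m n, x (m, n) = true ↔ (e m = e n ∨ R (e m) (e n))

theorem isGrp_of_mem (x : ℕ × ℕ → Bool) (h : ∃ α : Ordinal.{0}, Ordinal.card α ≤ Cardinal.aleph0 ∧
        ((∃ e : ℕ ≃ Subtype (fun f : (Ordinal.{0} → ℤ) =>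
              (∀ β : Ordinal.{0}, f β ≠ 0 → β < α) ∧ (Function.support f).Finite),
            ∀ m n : ℕ, x (m, n) = true ↔
              (e m = e n ∨ ∃ β : Ordinal.{0}, (e m).1 β < (e n).1 β ∧
                ∀ γ : Ordinal.{0}, β < γ → (e m).1 γ = (e n).1 γ)) ∨
         (∃ e : ℕ ≃ ℚ × Subtype (fun f : (Ordinal.{0} → ℤ) =>
              (∀ β : Ordinal.{0}, f β ≠ 0 → β < α) ∧ (Function.support f).Finite),
            ∀ m n : ℕ, x (m, n) = true ↔
              (e m = e n ∨ (e m).1 < (e n).1 ∨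
                ((e m).1 = (e n).1 ∧
                  ∃ β : Ordinal.{0}, (e m).2.1 β < (e n).2.1 β ∧
                    ∀ γ : Ordinal.{0}, β < γ → (e m).2.1 γ = (e n).2.1 γ))))) :
    IsGrp x := by
  obtain ⟨α, -, ⟨e, he⟩ | ⟨e, he⟩⟩ := h
  · refine ⟨HG α, inferInstance, fun u v => LO u.1 v.1, e, fun u => LO_irrefl _,
      fun u v w => LO_trans, fun u v huv => ?_, fun u v w => ?_, he⟩
    · exact LO_total u.2 v.2 (fun h => huv (Subtype.ext h))
    · change LO (u.1 + w.1) (v.1 + w.1) ↔ LO u.1 v.1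
      exact LO_add _ _ _
  · refine ⟨ℚ × HG α, inferInstance, fun u v => u.1 < v.1 ∨ (u.1 = v.1 ∧ LO u.2.1 v.2.1), e,
      ?_, ?_, ?_, ?_, he⟩
    · rintro u (h | ⟨-, h⟩)
      · exact lt_irrefl _ h
      · exact LO_irrefl _ h
    · rintro u v w (h | ⟨h1, h2⟩) (h' | ⟨h1', h2'⟩)
      · exact Or.inl (h.trans h')
      · exact Or.inl (by rw [← h1']; exact h)
      · exact Or.inl (by rw [h1]; exact h')
      · exact Or.inr ⟨h1.trans h1', LO_trans h2 h2'⟩
    · intro u v huv
      rcases lt_trichotomy u.1 v.1 with h | h | h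
      · exact Or.inl (Or.inl h)
      · have h2 : u.2 ≠ v.2 := fun h2 => huv (Prod.ext h h2)
        rcases LO_total u.2.2 v.2.2 (fun h3 => h2 (Subtype.ext h3)) with h4 | h4
        · exact Or.inl (Or.inr ⟨h, h4⟩)
        · exact Or.inr (Or.inr ⟨h.symm, h4⟩)
      · exact Or.inr (Or.inl h)
    · intro u v w
      change (u.1 + w.1 < v.1 + w.1 ∨ (u.1 + w.1 = v.1 + w.1 ∧ LO (u.2.1 + w.2.1) (v.2.1 + w.2.1)))
        ↔ _
      rw [LO_add]
      simp

/-- the strict part of a code -/
def slt (x : ℕ × ℕ → Bool) (i j : ℕ) : Prop := i ≠ j ∧ x (i, j) = true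

theorem slt_facts {x : ℕ × ℕ → Bool} (h : IsGrp x) :
    (∀ i j k, slt x i j → slt x j k → slt x i k) ∧ (∀ i j, i ≠ j → slt x i j ∨ slt x j i) ∧
    (∀ i, x (i, i) = true) ∧
    (∀ i j, ∃ g : Equiv.Perm ℕ, g i = j ∧ ∀ m n, x (g m, g n) = x (m, n)) := by
  obtain ⟨Z, hZ, R, e, h1, h2, h3, h4, h5⟩ := h
  have hs : ∀ i j, slt x i j ↔ R (e i) (e j) := by
    intro i j
    constructor
    · rintro ⟨h6, h7⟩
      rcases (h5 i j).1 h7 with h8 | h8
      · exact absurd (e.injective h8) h6
      · exact h8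
    · intro h6
      refine ⟨?_, (h5 i j).2 (Or.inr h6)⟩
      rintro rfl
      exact h1 _ h6
  refine ⟨?_, ?_, ?_, ?_⟩
  · intro i j k
    rw [hs, hs, hs]; exact h2 _ _ _
  · intro i j hij
    rw [hs, hs]; exact h3 _ _ (fun h => hij (e.injective h))
  · intro i
    exact (h5 i i).2 (Or.inl rfl)
  · intro i j
    refine ⟨(e.trans (Equiv.addRight (e j - e i))).trans e.symm, ?_, ?_⟩
    · simp
    · intro m n
      rw [Bool.eq_iff_iff, h5, h5]
      simp only [Equiv.trans_apply, Equiv.apply_symm_apply, Equiv.coe_addRight]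
      rw [h4, add_left_inj]

/-- the transfer map -/
theorem exists_transfer (r : ℕ → ℕ → Prop) [IsWellOrder ℕ r] :
    ∃ Φ : (ℕ →₀ ℤ) ≃ {f : Ordinal.{0} → ℤ // SP (type r) f},
      ∀ u v, LO (Φ u).1 (Φ v).1 ↔ LX r (fun _ => 1) u v := by
  classical
  let A : (ℕ →₀ ℤ) → Ordinal.{0} → ℤ := fun u β =>
    if h : β < type r then u (enum r ⟨β, h⟩) else 0
  have hA1 : ∀ u j, A u (typein r j) = u j := by
    intro u j
    change (if h : typein r j < type r then u (enum r ⟨typein r j, h⟩) else 0) = u j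
    rw [dif_pos (typein_lt_type r j), enum_typein]
  have hA2 : ∀ u β, ¬ β < type r → A u β = 0 := fun u β h => dif_neg h
  have hA3 : ∀ u, SP (type r) (A u) := by
    intro u
    constructor
    · intro β hβ
      by_contra hcon
      exact hβ (hA2 u β hcon)
    · refine (u.support.finite_toSet.image (typein r)).subset ?_
      intro β hβ
      have hlt : β < type r := by
        by_contra hcon
        exact hβ (hA2 u β hcon)
      obtain ⟨j, rfl⟩ := typein_surj r hlt
      rw [Function.mem_support, hA1] at hβ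
      exact ⟨j, by simpa using hβ, rfl⟩
  have hB : ∀ f : {f : Ordinal.{0} → ℤ // SP (type r) f},
      (Function.support (fun j => f.1 (typein r j))).Finite := by
    intro f
    have := f.2.2.preimage (f := fun j => typein r j)
      (fun i _ j _ hij => (typein_inj r).1 hij)
    exact this
  let Φ : (ℕ →₀ ℤ) ≃ {f : Ordinal.{0} → ℤ // SP (type r) f} :=
    { toFun := fun u => ⟨A u, hA3 u⟩
      invFun := fun f => Finsupp.ofSupportFinite (fun j => f.1 (typein r j)) (hB f)
      left_inv := by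
        intro u
        ext j
        exact hA1 u j
      right_inv := by
        intro f
        apply Subtype.ext
        funext β
        by_cases hβ : β < type r
        · obtain ⟨j, rfl⟩ := typein_surj r hβ
          exact hA1 _ j
        · have h1 : f.1 β = 0 := by
            by_contra hcon
            exact hβ (f.2.1 β hcon)
          rw [h1]
          exact hA2 _ β hβ }
  refine ⟨Φ, fun u v => ?_⟩
  change LO (A u) (A v) ↔ _
  constructor
  · rintro ⟨β, hβ1, hβ2⟩
    have hlt : β < type r := by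
      by_contra hcon
      rw [hA2 u β hcon, hA2 v β hcon] at hβ1
      exact lt_irrefl _ hβ1
    obtain ⟨t, rfl⟩ := typein_surj r hlt
    rw [hA1, hA1] at hβ1
    refine ⟨t, ⟨?_, ?_⟩, ?_⟩
    · rw [Finsupp.sub_apply]; omega
    · intro j hj
      rcases trichotomous_of r j t with h | h | h
      · exact Or.inr h
      · exact Or.inl h
      · have := hβ2 (typein r j) ((typein_lt_typein r).2 h)
        rw [hA1, hA1] at this
        rw [Finsupp.sub_apply] at hj
        exact absurd (by omega) hj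
    · change 0 < 1 * (v - u) t
      rw [Finsupp.sub_apply]; omega
  · rintro ⟨t, ht, hpos⟩
    refine ⟨typein r t, ?_, ?_⟩
    · rw [hA1, hA1]
      change 0 < 1 * (v - u) t at hpos
      rw [Finsupp.sub_apply] at hpos
      omega
    · intro γ hγ
      by_cases hlt : γ < type r
      · obtain ⟨j, rfl⟩ := typein_surj r hlt
        rw [hA1, hA1]
        have hrt : r t j := (typein_lt_typein r).1 hγ
        by_contra hcon
        have h1 : (v - u) j ≠ 0 := by
          rw [Finsupp.sub_apply]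
          intro h; exact hcon (by omega)
        rcases ht.2 j h1 with h2 | h2
        · subst h2; exact irrefl_of r j hrt
        · exact irrefl_of r j (trans_of r h2 hrt)
      · rw [hA2 u γ hlt, hA2 v γ hlt]

end Pool.Agent.Helper890.TM
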