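import Pool.Agent.Helper890.TM.Core
import Pool.Agent.Helper890.TM.MSide

set_option autoImplicit false

open Set Topology MeasureTheory Ordinal

namespace Pool.Agent.Helper890.TM

/-- the set of codes in question -/
def MM : Set (ℕ × ℕ → Bool) := {x : (ℕ × ℕ → Bool) | ∃ α : Ordinal.{0}, Ordinal.card α ≤ Cardinal.aleph0 ∧
        ((∃ e : ℕ ≃ Subtype (fun f : (Ordinal.{0} → ℤ) =>
              (∀ β : Ordinal.{0}, f β ≠ 0 → β < α) ∧ (Function.support f).Finite),
            ∀ m n : ℕ, x (m, n) = true ↔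
              (e m = e n ∨ ∃ β : Ordinal.{0}, (e m).1 β < (e n).1 β ∧
                ∀ γ : Ordinal.{0}, β < γ → (e m).1 γ = (e n).1 γ)) ∨
         (∃ e : ℕ ≃ ℚ × Subtype (fun f : (Ordinal.{0} → ℤ) =>
              (∀ β : Ordinal.{0}, f β ≠ 0 → β < α) ∧ (Function.support f).Finite),
            ∀ m n : ℕ, x (m, n) = true ↔
              (e m = e n ∨ (e m).1 < (e n).1 ∨
                ((e m).1 = (e n).1 ∧
                  ∃ β : Ordinal.{0}, (e m).2.1 β < (e n).2.1 β ∧
                    ∀ γ : Ordinal.{0}, β < γ → (e m).2.1 γ = (e n).2.1 γ))))}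

theorem mem_MM_isGrp {x : ℕ × ℕ → Bool} (h : x ∈ MM) : IsGrp x := isGrp_of_mem x h

theorem no_topology (t : TopologicalSpace MM) (hP : @PolishSpace MM t)
    (a : Equiv.Perm ℕ × MM → MM)
    (ha : ∀ g : Equiv.Perm ℕ, ∀ x : MM,
            ((a (g, x) : MM) : ℕ × ℕ → Bool) =
              (fun p : ℕ × ℕ => (x : ℕ × ℕ → Bool) (g.symm p.1, g.symm p.2)))
    (hJ : @Continuous (Equiv.Perm ℕ × MM) MM
            (@instTopologicalSpaceProd (Equiv.Perm ℕ) MM
              (TopologicalSpace.induced (fun g : Equiv.Perm ℕ => (⇑g : ℕ → ℕ)) inferInstance) t)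
            t a) : False := by
  classical
  obtain ⟨E⟩ : Nonempty (ℕ ≃ (ℕ →₀ ℤ)) := nonempty_equiv_of_countable
  refine @core MM t hP (fun g x => a (g, x)) ?_ ?_ hJ (fun x i j => slt x.1 i j) ?_ ?_ ?_ ?_ ?_ ?_ E ?_
  · intro x
    apply Subtype.ext
    rw [ha]; rfl
  · intro g h x
    apply Subtype.ext
    rw [ha, ha, ha]; rfl
  · intro g x i j
    unfold slt
    rw [ha]
    simp
  · intro x y h
    apply Subtype.ext
    funext ⟨i, j⟩
    by_cases hij : i = j
    · subst hij
      rw [(slt_facts (mem_MM_isGrp x.2)).2.2.1, (slt_facts (mem_MM_isGrp y.2)).2.2.1]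
    · have := h i j
      unfold slt at this
      simp only [ne_eq, hij, not_false_eq_true, true_and] at this
      exact Bool.eq_iff_iff.2 this
  · rintro x i ⟨h, -⟩
    exact h rfl
  · intro x
    exact (slt_facts (mem_MM_isGrp x.2)).1
  · intro x
    exact (slt_facts (mem_MM_isGrp x.2)).2.1
  · intro x i j
    obtain ⟨g, hg1, hg2⟩ := (slt_facts (mem_MM_isGrp x.2)).2.2.2 i j
    refine ⟨g, hg1, ?_⟩
    apply Subtype.ext
    rw [ha]
    funext p
    rw [← hg2 (g.symm p.1) (g.symm p.2), Equiv.apply_symm_apply, Equiv.apply_symm_apply]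
  · intro r hr
    obtain ⟨Φ, hΦ⟩ := exists_transfer r
    let x : ℕ × ℕ → Bool := fun p => decide (p.1 = p.2 ∨ LX r (fun _ => 1) (E p.1) (E p.2))
    have hx : ∀ i j, x (i, j) = true ↔ (i = j ∨ LX r (fun _ => 1) (E i) (E j)) := by
      intro i j
      exact decide_eq_true_iff
    have hxM : x ∈ MM := by
      refine ⟨type r, by simp, Or.inl ⟨E.trans Φ, ?_⟩⟩
      intro m n
      rw [hx]
      apply or_congr
      · simp
      · exact (hΦ (E m) (E n)).symm
    refine ⟨⟨x, hxM⟩, fun i j => ?_⟩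
    unfold slt
    change (i ≠ j ∧ x (i, j) = true) ↔ _
    rw [hx]
    constructor
    · rintro ⟨h1, h2 | h2⟩
      · exact absurd h2 h1
      · exact h2
    · intro h
      refine ⟨?_, Or.inr h⟩
      rintro rfl
      exact LX_irrefl _ h

end Pool.Agent.Helper890.TM
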