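import Pool.Agent.Helper890.TM.Blocks

set_option autoImplicit false

open Set

namespace Pool.Agent.Helper890.TM

section
variable {r : ℕ → ℕ → Prop}

/-- blocks that are not above the zero block -/
def CS (r : ℕ → ℕ → Prop) (σ : ℕ → ℤ) : Set (ℕ →₀ ℤ) := {u | ¬ LX r σ 0 (nPart r u)}

theorem toFN_zero_val : (toFN r (0 : ℕ →₀ ℤ)).1 = 0 := nPart_zero

theorem mem_CS_cases [IsStrictTotalOrder ℕ r] {σ : ℕ → ℤ} (hσ : ∀ t, σ t ≠ 0) {u : ℕ →₀ ℤ}
    (hu : u ∈ CS r σ) : nPart r u = 0 ∨ LX r σ (nPart r u) 0 := by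
  by_cases h : nPart r u = 0
  · exact Or.inl h
  · rcases LX_total (r := r) hσ (Ne.symm h) with h1 | h1
    · exact absurd h1 hu
    · exact Or.inr h1

theorem zero_mem_CS {σ : ℕ → ℤ} : (0 : ℕ →₀ ℤ) ∈ CS r σ := by
  change ¬ LX r σ 0 (nPart r 0)
  rw [nPart_zero]; exact LX_irrefl _

theorem mem_CS_of_zero {σ : ℕ → ℤ} {u : ℕ →₀ ℤ} (h : nPart r u = 0) : u ∈ CS r σ := by
  change ¬ LX r σ 0 (nPart r u)
  rw [h]; exact LX_irrefl _

theorem mem_CS_of_neg [IsStrictTotalOrder ℕ r] {σ : ℕ → ℤ} {u : ℕ →₀ ℤ}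
    (h : LX r σ (nPart r u) 0) : u ∈ CS r σ := by
  change ¬ LX r σ 0 (nPart r u)
  exact LX_asymm h

theorem aut_up [IsStrictTotalOrder ℕ r] (hr : ¬ WellFounded r) {σ : ℕ → ℤ} (hσ : ∀ t, σ t ≠ 0)
    {b b' : ℕ →₀ ℤ} (hb : LX r σ 0 (nPart r b)) (hb' : LX r σ 0 (nPart r b')) :
    ∃ g : Equiv.Perm (ℕ →₀ ℤ), (∀ u v, LX r σ (g u) (g v) ↔ LX r σ u v) ∧ g b = b' ∧
      ∀ u ∈ CS r σ, g u = u := by
  classical
  obtain ⟨φ, h1, h2, h3⟩ := shiftUp hr hσ (toFN r 0) (toFN r b) (toFN r b')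
    (by rw [toFN_zero_val]; exact hb) (by rw [toFN_zero_val]; exact hb')
  obtain ⟨g, hg1, hg2, hg3⟩ := lift φ h1
    (fun x => if x = toFN r b then wPart r b' - wPart r b else 0) (by
      intro a j hj
      split_ifs
      · rw [Finsupp.sub_apply, wPart_apply_of' _ hj, wPart_apply_of' _ hj, sub_zero]
      · rfl)
  refine ⟨g, hg1, ?_, ?_⟩
  · rw [hg3, h2, if_pos rfl]
    change nPart r b' + wPart r b + (wPart r b' - wPart r b) = b'
    conv_rhs => rw [← nPart_add_wPart (r := r) b']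
    abel
  · intro u hu
    have hne : toFN r u ≠ toFN r b := by
      intro h
      apply hu
      rw [toFN_eq_iff.1 h]; exact hb
    rw [hg3, if_neg hne, h3 _ (by rw [toFN_zero_val]; exact hu)]
    change nPart r u + wPart r u + 0 = u
    rw [add_zero, nPart_add_wPart]

theorem aut_down [IsStrictTotalOrder ℕ r] {σ : ℕ → ℤ}
    (φ : Equiv.Perm (FN r)) (h1 : ∀ u v, LX r σ (φ u).1 (φ v).1 ↔ LX r σ u.1 v.1)
    (h0 : φ (toFN r 0) = toFN r 0)
    {w w' n n' : ℕ →₀ ℤ} (hw : φ (toFN r w) = toFN r w') (hn : φ (toFN r n) = toFN r n')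
    (hne : toFN r w ≠ toFN r n) :
    ∃ g : Equiv.Perm (ℕ →₀ ℤ), (∀ u v, LX r σ (g u) (g v) ↔ LX r σ u v) ∧ g w = w' ∧ g n = n' ∧
      ∀ u, g u ∈ CS r σ ↔ u ∈ CS r σ := by
  classical
  obtain ⟨g, hg1, hg2, hg3⟩ := lift φ h1
    (fun x => if x = toFN r w then wPart r w' - wPart r w else
      if x = toFN r n then wPart r n' - wPart r n else 0) (by
      intro a j hj
      split_ifs
      · rw [Finsupp.sub_apply, wPart_apply_of' _ hj, wPart_apply_of' _ hj, sub_zero]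
      · rw [Finsupp.sub_apply, wPart_apply_of' _ hj, wPart_apply_of' _ hj, sub_zero]
      · rfl)
  refine ⟨g, hg1, ?_, ?_, ?_⟩
  · rw [hg3, hw, if_pos rfl]
    change nPart r w' + wPart r w + (wPart r w' - wPart r w) = w'
    conv_rhs => rw [← nPart_add_wPart (r := r) w']
    abel
  · rw [hg3, hn, if_neg hne.symm, if_pos rfl]
    change nPart r n' + wPart r n + (wPart r n' - wPart r n) = n'
    conv_rhs => rw [← nPart_add_wPart (r := r) n']
    abel
  · intro u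
    have h4 : nPart r (g u) = (φ (toFN r u)).1 := congrArg Subtype.val (hg2 u)
    have h5 : LX r σ 0 (nPart r (g u)) ↔ LX r σ 0 (nPart r u) := by
      rw [h4]
      have := h1 (toFN r 0) (toFN r u)
      rw [h0, toFN_zero_val] at this
      exact this
    exact not_congr h5

theorem aut_down1 [IsStrictTotalOrder ℕ r] (hr : ¬ WellFounded r) {σ : ℕ → ℤ}
    (hσ : ∀ t, σ t ≠ 0) {w w' n n' : ℕ →₀ ℤ} (hw : LX r σ (nPart r w) 0)
    (hw' : LX r σ (nPart r w') 0) (hn : nPart r n = 0) (hn' : nPart r n' = 0) :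
    ∃ g : Equiv.Perm (ℕ →₀ ℤ), (∀ u v, LX r σ (g u) (g v) ↔ LX r σ u v) ∧ g w = w' ∧ g n = n' ∧
      ∀ u, g u ∈ CS r σ ↔ u ∈ CS r σ := by
  obtain ⟨φ, h1, h2, h3⟩ := shiftDown hr hσ (toFN r 0) (toFN r w) (toFN r w')
    (by rw [toFN_zero_val]; exact hw) (by rw [toFN_zero_val]; exact hw')
  have hfn : toFN r n = toFN r 0 := toFN_eq_iff.2 (by rw [hn, nPart_zero])
  have hfn' : toFN r n' = toFN r 0 := toFN_eq_iff.2 (by rw [hn', nPart_zero])
  have h0 : φ (toFN r 0) = toFN r 0 := h3 _ (LX_irrefl _)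
  refine aut_down φ h1 h0 h2 (by rw [hfn, hfn']; exact h0) ?_
  rw [hfn]
  intro h
  have := toFN_eq_iff.1 h
  rw [nPart_zero] at this
  rw [this] at hw
  exact LX_irrefl _ hw

theorem aut_down2 [IsStrictTotalOrder ℕ r] (hr : ¬ WellFounded r) {σ : ℕ → ℤ}
    (hσ : ∀ t, σ t ≠ 0) {w₁ w₂ v₁ v₂ : ℕ →₀ ℤ}
    (hw₁ : LX r σ (nPart r w₁) (nPart r w₂)) (hw₂ : LX r σ (nPart r w₂) 0)
    (hv₁ : LX r σ (nPart r v₁) (nPart r v₂)) (hv₂ : LX r σ (nPart r v₂) 0) :
    ∃ g : Equiv.Perm (ℕ →₀ ℤ), (∀ u v, LX r σ (g u) (g v) ↔ LX r σ u v) ∧ g w₁ = v₁ ∧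
      g w₂ = v₂ ∧ ∀ u, g u ∈ CS r σ ↔ u ∈ CS r σ := by
  obtain ⟨φ, h1, h2, h3⟩ := shiftDown hr hσ (toFN r 0) (toFN r w₂) (toFN r v₂)
    (by rw [toFN_zero_val]; exact hw₂) (by rw [toFN_zero_val]; exact hv₂)
  have ha : LX r σ (φ (toFN r w₁)).1 (toFN r v₂).1 := by
    rw [← h2, h1]; exact hw₁
  obtain ⟨φ', h1', h2', h3'⟩ := shiftDown hr hσ (toFN r v₂) (φ (toFN r w₁)) (toFN r v₁)
    ha hv₁
  have h0 : φ (toFN r 0) = toFN r 0 := h3 _ (LX_irrefl _)
  have h0' : φ' (toFN r 0) = toFN r 0 := h3' _ (by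
    rw [toFN_zero_val]; exact LX_asymm hv₂)
  refine aut_down (φ.trans φ') (fun u v => ?_) ?_ ?_ ?_ ?_
  · simp only [Equiv.trans_apply]; rw [h1', h1]
  · simp only [Equiv.trans_apply]; rw [h0, h0']
  · simp only [Equiv.trans_apply]; exact h2'
  · simp only [Equiv.trans_apply]; rw [h2]
    exact h3' _ (LX_irrefl _)
  · intro h
    have := toFN_eq_iff.1 h
    rw [this] at hw₁
    exact LX_irrefl _ hw₁

theorem aut_block [IsStrictTotalOrder ℕ r] {σ : ℕ → ℤ} {u v u' v' : ℕ →₀ ℤ} {t : ℕ}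
    (h : IsTop r (v - u) t) (h' : IsTop r (v' - u') t) (he : (v - u) t = (v' - u') t)
    (hu : nPart r u = 0) (hv : nPart r v = 0) (hu' : nPart r u' = 0) (hv' : nPart r v' = 0) :
    ∃ g : Equiv.Perm (ℕ →₀ ℤ), (∀ u v, LX r σ (g u) (g v) ↔ LX r σ u v) ∧ g u = u' ∧ g v = v' ∧
      ∀ w, g w ∈ CS r σ ↔ w ∈ CS r σ := by
  obtain ⟨g, h1, h2, h3, h4⟩ := kshift h h' he
  refine ⟨g, LX_of_top h1, h2, h3, fun w => ?_⟩
  have h5 : nPart r (g w) = nPart r w := by
    rcases h4 w with h6 | h6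
    · rw [h6, nPart_add, nPart_sub, hu, hu']; simp
    · rw [h6, nPart_add, nPart_sub, hv, hv']; simp
  change ¬ LX r σ 0 (nPart r (g w)) ↔ ¬ LX r σ 0 (nPart r w)
  rw [h5]

/-- In a relation that only depends on the top coordinate type, each level has a direction. -/
theorem dir_lemma [IsStrictTotalOrder ℕ r] (Dm : (ℕ →₀ ℤ) → Prop)
    (ρ : (ℕ →₀ ℤ) → (ℕ →₀ ℤ) → Prop)
    (hirr : ∀ u, Dm u → ¬ ρ u u)
    (htr : ∀ u v w, Dm u → Dm v → Dm w → ρ u v → ρ v w → ρ u w)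
    (htot : ∀ u v, Dm u → Dm v → u ≠ v → ρ u v ∨ ρ v u)
    (hK : ∀ u v u' v' t, Dm u → Dm v → Dm u' → Dm v' → IsTop r (v - u) t →
      IsTop r (v' - u') t → (v - u) t = (v' - u') t → ρ u v → ρ u' v')
    (t : ℕ) (ht : ∀ z : ℤ, Dm (Finsupp.single t z)) :
    (∀ u v, Dm u → Dm v → IsTop r (v - u) t → (ρ u v ↔ 0 < (v - u) t)) ∨
    (∀ u v, Dm u → Dm v → IsTop r (v - u) t → (ρ u v ↔ (v - u) t < 0)) := by
  have h0 : Dm 0 := by
    have := ht 0
    rwa [Finsupp.single_zero] at this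
  -- a general step: if `ρ 0 (single t ε)` with `ε = ±1` then the sign of `ε` is the direction
  have gen : ∀ ε : ℤ, ε ≠ 0 → ρ 0 (Finsupp.single t ε) → ∀ n : ℕ,
      ρ 0 (Finsupp.single t (((n : ℤ) + 1) * ε)) := by
    intro ε hε h n
    induction n with
    | zero => simpa using h
    | succ n ih =>
      have h1 : ρ (Finsupp.single t (((n : ℤ) + 1) * ε))
          (Finsupp.single t ((((n + 1 : ℕ) : ℤ) + 1) * ε)) := by
        have hd : (Finsupp.single t ((((n + 1 : ℕ) : ℤ) + 1) * ε) : ℕ →₀ ℤ)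
            - Finsupp.single t (((n : ℤ) + 1) * ε) = Finsupp.single t ε := by
          rw [← Finsupp.single_sub]
          congr 1
          push_cast; ring
        refine hK 0 (Finsupp.single t ε) _ _ t h0 (ht _) (ht _) (ht _) ?_ ?_ ?_ h
        · rw [sub_zero]; exact isTop_single t hε
        · rw [hd]; exact isTop_single t hε
        · rw [hd, sub_zero]
      exact htr _ _ _ h0 (ht _) (ht _) ih h1
  have gen2 : ∀ ε : ℤ, (ε = 1 ∨ ε = -1) → ρ 0 (Finsupp.single t ε) →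
      ∀ u v, Dm u → Dm v → IsTop r (v - u) t → (ρ u v ↔ 0 < ε * (v - u) t) := by
    intro ε hε h
    have hε0 : ε ≠ 0 := by rcases hε with rfl | rfl <;> norm_num
    have hεε : ε * ε = 1 := by rcases hε with rfl | rfl <;> norm_num
    have key : ∀ u v, Dm u → Dm v → IsTop r (v - u) t → 0 < ε * (v - u) t → ρ u v := by
      intro u v hu hv huv hpos
      obtain ⟨n, hn⟩ : ∃ n : ℕ, (n : ℤ) + 1 = ε * (v - u) t := by
        refine ⟨(ε * (v - u) t - 1).toNat, ?_⟩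
        rw [Int.toNat_of_nonneg (by linarith)]; ring
      have h1 := gen ε hε0 h n
      have hval : ((n : ℤ) + 1) * ε = (v - u) t := by
        rw [hn]
        calc ε * (v - u) t * ε = (ε * ε) * (v - u) t := by ring
          _ = (v - u) t := by rw [hεε, one_mul]
      rw [hval] at h1
      refine hK 0 _ u v t h0 (ht _) hu hv ?_ huv ?_ h1
      · rw [sub_zero]; exact isTop_single t huv.1
      · rw [sub_zero, Finsupp.single_eq_same]
    intro u v hu hv huv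
    constructor
    · intro hρ
      by_contra hcon
      have hne : ε * (v - u) t ≠ 0 := mul_ne_zero hε0 huv.1
      have hneg : ε * (v - u) t < 0 := lt_of_le_of_ne (not_lt.1 hcon) hne
      have h2 : 0 < ε * (u - v) t := by
        have : (u - v) t = -(v - u) t := by simp
        rw [this, mul_neg]; linarith
      have h3 := key v u hv hu huv.swap h2
      exact hirr u hu (htr u v u hu hv hu hρ h3)
    · exact key u v hu hv huv
  have hne : (0 : ℕ →₀ ℤ) ≠ Finsupp.single t 1 := by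
    intro h
    have := congrArg (fun f : ℕ →₀ ℤ => f t) h
    simp at this
  rcases htot 0 (Finsupp.single t 1) h0 (ht 1) hne with h | h
  · left
    intro u v hu hv huv
    have := gen2 1 (Or.inl rfl) h u v hu hv huv
    rwa [one_mul] at this
  · right
    have h' : ρ 0 (Finsupp.single t (-1)) := by
      refine hK (Finsupp.single t 1) 0 0 (Finsupp.single t (-1)) t (ht 1) h0 h0 (ht _) ?_ ?_ ?_ h
      · rw [zero_sub, ← Finsupp.single_neg]; exact isTop_single t (by norm_num)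
      · rw [sub_zero]; exact isTop_single t (by norm_num)
      · rw [zero_sub, sub_zero, ← Finsupp.single_neg]
    intro u v hu hv huv
    have := gen2 (-1) (Or.inr rfl) h' u v hu hv huv
    rw [this]
    constructor <;> intro h5 <;> linarith

/-- A relation on all of `F` depending only on the top type is a signed lexicographic order. -/
theorem eq_LX [IsStrictTotalOrder ℕ r] (ρ : (ℕ →₀ ℤ) → (ℕ →₀ ℤ) → Prop)
    (hirr : ∀ u, ¬ ρ u u)
    (htr : ∀ u v w, ρ u v → ρ v w → ρ u w)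
    (htot : ∀ u v, u ≠ v → ρ u v ∨ ρ v u)
    (hK : ∀ u v u' v' t, IsTop r (v - u) t →
      IsTop r (v' - u') t → (v - u) t = (v' - u') t → ρ u v → ρ u' v') :
    ∃ σ : ℕ → ℤ, (∀ t, σ t ≠ 0) ∧ ∀ u v, ρ u v ↔ LX r σ u v := by
  have hd := fun t => dir_lemma (r := r) (fun _ => True) ρ (fun u _ => hirr u)
    (fun u v w _ _ _ => htr u v w) (fun u v _ _ => htot u v)
    (fun u v u' v' t _ _ _ _ => hK u v u' v' t) t (fun _ => trivial)
  have : ∀ t, ∃ s : ℤ, s ≠ 0 ∧ ∀ u v, IsTop r (v - u) t → (ρ u v ↔ 0 < s * (v - u) t) := by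
    intro t
    rcases hd t with h | h
    · exact ⟨1, by norm_num, fun u v huv => by
        rw [h u v trivial trivial huv, one_mul]⟩
    · exact ⟨-1, by norm_num, fun u v huv => by
        rw [h u v trivial trivial huv]
        constructor <;> intro h5 <;> linarith⟩
  choose σ hσ0 hσ using this
  refine ⟨σ, hσ0, fun u v => ?_⟩
  by_cases huv : u = v
  · subst huv
    exact ⟨fun h => absurd h (hirr u), fun h => absurd h (LX_irrefl u)⟩
  · obtain ⟨t, ht⟩ := exists_top (r := r) (sub_ne_zero.2 (Ne.symm huv))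
    rw [hσ t u v ht, LX_iff ht]

end

end Pool.Agent.Helper890.TM
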