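import Mathlib

set_option autoImplicit false

open Set Topology MeasureTheory Ordinal

namespace Pool.Agent.Helper890.TM

/-- the relation coded by `c` -/
def rel (c : ℕ × ℕ → Bool) : ℕ → ℕ → Prop := fun i j => c (i, j) = true

theorem lt_w1 (ξ : Ordinal.{0}) : ξ < ω₁ ↔ ξ.card ≤ Cardinal.aleph0 := by
  rw [← Cardinal.ord_aleph, Cardinal.lt_ord, ← Cardinal.succ_aleph0, Order.lt_succ_iff]

theorem succ_lt_w1 (ξ : Ordinal.{0}) (h : ξ < ω₁) : Order.succ ξ < ω₁ := by
  rw [lt_w1] at h ⊢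
  rw [Order.succ_eq_add_one, Ordinal.card_add]
  simpa using h

theorem zero_lt_w1 : (0 : Ordinal.{0}) < ω₁ := by
  rw [lt_w1]; simp

theorem pigeon {Q : Type} [Countable Q] (Φ : Ordinal.{0} → Q → Prop)
    (hmono : ∀ ξ' ξ q, ξ' ≤ ξ → Φ ξ q → Φ ξ' q) (h : ∀ ξ < ω₁, ∃ q, Φ ξ q) :
    ∃ q, ∀ ξ < ω₁, Φ ξ q := by
  by_contra hcon
  push Not at hcon
  choose g hg1 hg2 using hcon
  have hs : ⨆ q, g q < ω₁ := Ordinal.iSup_lt_omega_one hg1
  obtain ⟨q, hq⟩ := h _ hs
  exact hg2 q (hmono _ _ q (Ordinal.le_iSup g q) hq)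

theorem exists_code (ξ : Ordinal.{0}) (hξ : ξ < ω₁) :
    ∃ c : ℕ × ℕ → Bool, IsWellOrder ℕ (rel c) ∧
      ∃ b : ℕ, ∀ h : Acc (rel c) b, ξ ≤ h.rank := by
  classical
  set α : Ordinal.{0} := ω + (ξ + 1) with hα
  have hα1 : α < ω₁ := by
    rw [lt_w1] at hξ ⊢
    rw [hα, Ordinal.card_add, Ordinal.card_add]
    simpa using hξ
  have hcard : Cardinal.mk α.ToType = Cardinal.aleph0 := by
    rw [Cardinal.mk_toType]
    apply le_antisymm
    · exact (lt_w1 _).1 hα1
    · have : (ω : Ordinal.{0}) ≤ α := by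
        rw [hα]; exact le_self_add
      have h3 := Ordinal.card_le_card this
      simpa using h3
  have hN : Nonempty (ℕ ≃ α.ToType) := by
    have : Cardinal.mk ℕ = Cardinal.mk α.ToType := by rw [hcard]; simp
    exact Cardinal.eq.1 this
  obtain ⟨e⟩ := hN
  refine ⟨fun p => decide (e p.1 < e p.2), ?_, ?_⟩
  · have : rel (fun p : ℕ × ℕ => decide (e p.1 < e p.2)) = (e ⁻¹'o ((· < ·) : α.ToType → α.ToType → Prop)) := by
      funext i j
      simp [rel, Order.Preimage]
    rw [this]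
    exact (RelIso.preimage e ((· < ·) : α.ToType → α.ToType → Prop)).toRelEmbedding.isWellOrder
  · have hrel : rel (fun p : ℕ × ℕ => decide (e p.1 < e p.2)) = (e ⁻¹'o ((· < ·) : α.ToType → α.ToType → Prop)) := by
      funext i j
      simp [rel, Order.Preimage]
    have hwo : IsWellOrder ℕ (rel (fun p : ℕ × ℕ => decide (e p.1 < e p.2))) := by
      rw [hrel]
      exact (RelIso.preimage e ((· < ·) : α.ToType → α.ToType → Prop)).toRelEmbedding.isWellOrder
    have htype : Ordinal.type (rel (fun p : ℕ × ℕ => decide (e p.1 < e p.2))) = α := by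
      have h1 : Ordinal.type (rel (fun p : ℕ × ℕ => decide (e p.1 < e p.2)))
          = typeLT α.ToType := by
        apply Ordinal.type_eq.2
        refine ⟨⟨e, ?_⟩⟩
        intro a b
        simp [rel]
      rw [h1, Ordinal.type_toType]
    have hlt : ξ < Ordinal.type (rel (fun p : ℕ × ℕ => decide (e p.1 < e p.2))) := by
      rw [htype, hα]
      have h1 : ξ < ξ + 1 := by
        simpa using Order.lt_succ ξ
      exact lt_of_lt_of_le h1 le_add_self
    obtain ⟨b, hb⟩ := Ordinal.typein_surj _ hlt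
    refine ⟨b, fun h => ?_⟩
    have h2 : IsWellFounded.rank (rel (fun p : ℕ × ℕ => decide (e p.1 < e p.2))) b = ξ := by
      rw [IsWellFounded.rank_eq_typein]; exact hb
    have h3 : h.rank = IsWellFounded.rank (rel (fun p : ℕ × ℕ => decide (e p.1 < e p.2))) b := rfl
    rw [h3, h2]

/-- An analytic set of relation codes that contains all well-orders of `ℕ` contains a relation
that is not well-founded. -/
theorem exists_not_wf (A : Set (ℕ × ℕ → Bool)) (hA : AnalyticSet A)
    (hWO : ∀ c, IsWellOrder ℕ (rel c) → c ∈ A) :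
    ∃ c ∈ A, ¬ WellFounded (rel c) := by
  classical
  by_contra hcon
  push Not at hcon
  rw [AnalyticSet] at hA
  obtain ⟨c0, hc0, -⟩ := exists_code 0 zero_lt_w1
  rcases hA with hA | ⟨f, hf, hfA⟩
  · have := hWO c0 hc0
    rw [hA] at this
    exact this
  have hwf : ∀ u, WellFounded (rel (f u)) := fun u => hcon _ (by rw [← hfA]; exact ⟨u, rfl⟩)
  let ρ : (ℕ → ℕ) → ℕ → Ordinal.{0} := fun u k => ((hwf u).apply k).rank
  -- the invariant
  let P : ℕ → (ℕ → ℕ) → (ℕ → ℕ) → Prop := fun n s k =>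
    ∀ ξ < ω₁, ∃ u, (∀ i < n, u i = s i) ∧ (∀ i < n, rel (f u) (k (i + 1)) (k i)) ∧ ξ ≤ ρ u (k n)
  have hdesc : ∀ u k ξ, Order.succ ξ ≤ ρ u k → ∃ b, rel (f u) b k ∧ ξ ≤ ρ u b := by
    intro u k ξ h
    by_contra hno
    push Not at hno
    have h1 : ρ u k ≤ ξ := by
      change ((hwf u).apply k).rank ≤ ξ
      rw [Acc.rank_eq]
      apply Ordinal.iSup_le
      rintro ⟨b, hb⟩
      exact Order.succ_le_of_lt (hno b hb)
    exact absurd (lt_of_lt_of_le (Order.lt_succ ξ) (h.trans h1)) (lt_irrefl _)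
  have hstep : ∀ n s k, P n s k → ∃ q : ℕ × ℕ, P (n + 1) (Function.update s n q.1)
      (Function.update k (n + 1) q.2) := by
    intro n s k hP
    obtain ⟨q, hq⟩ := pigeon (Q := ℕ × ℕ) (fun ξ q => ∃ u, (∀ i < n, u i = s i) ∧ u n = q.1 ∧
        (∀ i < n, rel (f u) (k (i + 1)) (k i)) ∧ rel (f u) q.2 (k n) ∧ ξ ≤ ρ u q.2)
      (by
        rintro ξ' ξ q hle ⟨u, h1, h2, h3, h4, h5⟩
        exact ⟨u, h1, h2, h3, h4, hle.trans h5⟩)
      (by
        intro ξ hξ
        obtain ⟨u, h1, h2, h3⟩ := hP (Order.succ ξ) (succ_lt_w1 _ hξ)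
        obtain ⟨b, hb1, hb2⟩ := hdesc _ _ _ h3
        exact ⟨(u n, b), u, h1, rfl, h2, hb1, hb2⟩)
    refine ⟨q, fun ξ hξ => ?_⟩
    obtain ⟨u, h1, h2, h3, h4, h5⟩ := hq ξ hξ
    refine ⟨u, ?_, ?_, ?_⟩
    · intro i hi
      rcases Nat.lt_succ_iff_lt_or_eq.1 hi with h | h
      · rw [Function.update_of_ne (by omega)]; exact h1 i h
      · subst h; simpa using h2
    · intro i hi
      rcases Nat.lt_succ_iff_lt_or_eq.1 hi with h | h
      · rw [Function.update_of_ne (by omega), Function.update_of_ne (by omega)]; exact h3 i h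
      · subst h
        rw [Function.update_self, Function.update_of_ne (by omega)]
        exact h4
    · simpa using h5
  have hbase : ∃ q : ℕ, P 0 (fun _ => 0) (fun _ => q) := by
    obtain ⟨q, hq⟩ := pigeon (Q := ℕ) (fun ξ q => ∃ u, ξ ≤ ρ u q)
      (by
        rintro ξ' ξ q hle ⟨u, h⟩
        exact ⟨u, hle.trans h⟩)
      (by
        intro ξ hξ
        obtain ⟨c, hc, b, hb⟩ := exists_code ξ hξ
        have := hWO c hc
        rw [← hfA] at this
        obtain ⟨u, rfl⟩ := this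
        exact ⟨b, u, hb _⟩)
    exact ⟨q, fun ξ hξ => by
      obtain ⟨u, hu⟩ := hq ξ hξ
      exact ⟨u, by simp, by simp, hu⟩⟩
  obtain ⟨q0, hq0⟩ := hbase
  let st : (n : ℕ) → {p : (ℕ → ℕ) × (ℕ → ℕ) // P n p.1 p.2} := fun n =>
    Nat.rec ⟨(fun _ => 0, fun _ => q0), hq0⟩
      (fun n p => ⟨(Function.update p.1.1 n (hstep n _ _ p.2).choose.1,
        Function.update p.1.2 (n + 1) (hstep n _ _ p.2).choose.2), (hstep n _ _ p.2).choose_spec⟩) n
  have hst1 : ∀ n i, i < n → (st (n + 1)).1.1 i = (st n).1.1 i := by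
    intro n i hi
    change Function.update (st n).1.1 n _ i = _
    rw [Function.update_of_ne (by omega)]
  have hst2 : ∀ n i, i ≤ n → (st (n + 1)).1.2 i = (st n).1.2 i := by
    intro n i hi
    change Function.update (st n).1.2 (n + 1) _ i = _
    rw [Function.update_of_ne (by omega)]
  let s : ℕ → ℕ := fun i => (st (i + 1)).1.1 i
  let k : ℕ → ℕ := fun i => (st i).1.2 i
  have hs : ∀ n i, i < n → (st n).1.1 i = s i := by
    intro n i hi
    induction n, hi using Nat.le_induction with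
    | base => rfl
    | succ m hm ih => rw [hst1 m i hm, ih]
  have hk : ∀ n i, i ≤ n → (st n).1.2 i = k i := by
    intro n i hi
    induction n, hi using Nat.le_induction with
    | base => rfl
    | succ m hm ih => rw [hst2 m i hm, ih]
  have hex : ∀ n, ∃ u, (∀ i < n, u i = s i) ∧ (∀ i < n, rel (f u) (k (i + 1)) (k i)) := by
    intro n
    obtain ⟨u, h1, h2, -⟩ := (st n).2 0 zero_lt_w1
    refine ⟨u, fun i hi => by rw [h1 i hi, hs n i hi], fun i hi => ?_⟩
    have := h2 i hi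
    rwa [hk n (i + 1) hi, hk n i hi.le] at this
  choose u hu1 hu2 using hex
  have htend : Filter.Tendsto u Filter.atTop (𝓝 s) := by
    rw [tendsto_pi_nhds]
    intro i
    apply tendsto_const_nhds.congr'
    filter_upwards [Filter.eventually_gt_atTop i] with n hn
    exact (hu1 n i hn).symm
  have hlim : ∀ i, rel (f s) (k (i + 1)) (k i) := by
    intro i
    have h1 : Filter.Tendsto (fun n => f (u n) (k (i + 1), k i)) Filter.atTop
        (𝓝 (f s (k (i + 1), k i))) :=
      ((continuous_apply _).comp hf).continuousAt.tendsto.comp htend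
    have h2 : Filter.Tendsto (fun n => f (u n) (k (i + 1), k i)) Filter.atTop (𝓝 true) := by
      apply tendsto_const_nhds.congr'
      filter_upwards [Filter.eventually_gt_atTop i] with n hn
      exact (hu2 n i hn).symm
    exact tendsto_nhds_unique h1 h2
  have := (wellFounded_iff_isEmpty_descending_chain.1 (hwf s))
  exact this.false ⟨k, hlim⟩

end Pool.Agent.Helper890.TM
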