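import Pool.Agent.Helper890.TM.Lex

set_option autoImplicit false

open Set

namespace Pool.Agent.Helper890.TM

/-! ### two piecewise linear maps of `ℚ` -/

theorem ratUp (c a b : ℚ) (ha : c < a) (hb : c < b) :
    ∃ φ : Equiv.Perm ℚ, (∀ x y, φ x < φ y ↔ x < y) ∧ φ a = b ∧ ∀ x, x ≤ c → φ x = x := by
  have hac : 0 < a - c := sub_pos.2 ha
  have hbc : 0 < b - c := sub_pos.2 hb
  set l : ℚ := (b - c) / (a - c) with hl
  have hlpos : 0 < l := div_pos hbc hac
  have hlne : l ≠ 0 := hlpos.ne'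
  let f : ℚ → ℚ := fun x => if x ≤ c then x else c + (x - c) * l
  have hf1 : ∀ x, x ≤ c → f x = x := fun x hx => if_pos hx
  have hf2 : ∀ x, ¬ x ≤ c → f x = c + (x - c) * l := fun x hx => if_neg hx
  have hmono : StrictMono f := by
    intro x y hxy
    by_cases hx : x ≤ c <;> by_cases hy : y ≤ c
    · rw [hf1 x hx, hf1 y hy]; exact hxy
    · rw [hf1 x hx, hf2 y hy]
      have : 0 < (y - c) * l := mul_pos (sub_pos.2 (not_le.1 hy)) hlpos
      linarith
    · exact absurd (hxy.le.trans hy) hx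
    · rw [hf2 x hx, hf2 y hy]
      have : (x - c) * l < (y - c) * l := mul_lt_mul_of_pos_right (by linarith) hlpos
      linarith
  have hsurj : Function.Surjective f := by
    intro y
    by_cases hy : y ≤ c
    · exact ⟨y, hf1 y hy⟩
    · refine ⟨c + (y - c) / l, ?_⟩
      have h1 : 0 < (y - c) / l := div_pos (sub_pos.2 (not_le.1 hy)) hlpos
      rw [hf2 _ (by linarith)]
      field_simp
      ring
  refine ⟨Equiv.ofBijective f ⟨hmono.injective, hsurj⟩, fun x y => hmono.lt_iff_lt, ?_, hf1⟩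
  change f a = b
  rw [hf2 a (not_le.2 ha), hl]
  field_simp
  ring

theorem ratDown (c a b : ℚ) (ha : a < c) (hb : b < c) :
    ∃ φ : Equiv.Perm ℚ, (∀ x y, φ x < φ y ↔ x < y) ∧ φ a = b ∧ ∀ x, c ≤ x → φ x = x := by
  obtain ⟨φ, h1, h2, h3⟩ := ratUp (-c) (-a) (-b) (neg_lt_neg ha) (neg_lt_neg hb)
  refine ⟨(Equiv.neg ℚ).trans (φ.trans (Equiv.neg ℚ)), ?_, ?_, ?_⟩
  · intro x y
    simp only [Equiv.trans_apply, Equiv.neg_apply, neg_lt_neg_iff]
    rw [h1, neg_lt_neg_iff]
  · simp only [Equiv.trans_apply, Equiv.neg_apply, h2, neg_neg]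
  · intro x hx
    simp only [Equiv.trans_apply, Equiv.neg_apply]
    rw [h3 _ (neg_le_neg hx), neg_neg]

section
variable {r : ℕ → ℕ → Prop}

open Classical in
/-- ill-founded part of `u` -/
noncomputable def nPart (r : ℕ → ℕ → Prop) (u : ℕ →₀ ℤ) : ℕ →₀ ℤ := u.filter (fun j => ¬ Acc r j)

open Classical in
/-- well-founded part of `u` -/
noncomputable def wPart (r : ℕ → ℕ → Prop) (u : ℕ →₀ ℤ) : ℕ →₀ ℤ := u.filter (fun j => Acc r j)

theorem nPart_apply_of (u : ℕ →₀ ℤ) {j : ℕ} (h : ¬ Acc r j) : nPart r u j = u j := by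
  classical
  unfold nPart; rw [Finsupp.filter_apply, if_pos h]

theorem nPart_apply_of' (u : ℕ →₀ ℤ) {j : ℕ} (h : Acc r j) : nPart r u j = 0 := by
  classical
  unfold nPart; rw [Finsupp.filter_apply, if_neg (not_not.2 h)]

theorem wPart_apply_of (u : ℕ →₀ ℤ) {j : ℕ} (h : Acc r j) : wPart r u j = u j := by
  classical
  unfold wPart; rw [Finsupp.filter_apply, if_pos h]

theorem wPart_apply_of' (u : ℕ →₀ ℤ) {j : ℕ} (h : ¬ Acc r j) : wPart r u j = 0 := by
  classical
  unfold wPart; rw [Finsupp.filter_apply, if_neg h]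

theorem nPart_add_wPart (u : ℕ →₀ ℤ) : nPart r u + wPart r u = u := by
  ext j
  by_cases h : Acc r j
  · simp [nPart_apply_of' u h, wPart_apply_of u h]
  · simp [nPart_apply_of u h, wPart_apply_of' u h]

theorem nPart_add (u v : ℕ →₀ ℤ) : nPart r (u + v) = nPart r u + nPart r v := by
  ext j
  by_cases h : Acc r j
  · simp [nPart_apply_of' _ h]
  · simp [nPart_apply_of _ h]

theorem nPart_sub (u v : ℕ →₀ ℤ) : nPart r (u - v) = nPart r u - nPart r v := by
  ext j
  by_cases h : Acc r j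
  · simp [nPart_apply_of' _ h]
  · simp [nPart_apply_of _ h]

theorem wPart_add (u v : ℕ →₀ ℤ) : wPart r (u + v) = wPart r u + wPart r v := by
  ext j
  by_cases h : Acc r j
  · simp [wPart_apply_of _ h]
  · simp [wPart_apply_of' _ h]

theorem nPart_zero : nPart r (0 : ℕ →₀ ℤ) = 0 := by
  ext j
  by_cases h : Acc r j
  · simp [nPart_apply_of' _ h]
  · simp [nPart_apply_of _ h]

theorem nPart_eq_zero_iff (u : ℕ →₀ ℤ) : nPart r u = 0 ↔ ∀ j, ¬ Acc r j → u j = 0 := by
  constructor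
  · intro h j hj
    rw [← nPart_apply_of u hj, h]; rfl
  · intro h
    ext j
    by_cases hj : Acc r j
    · simp [nPart_apply_of' _ hj]
    · simp [nPart_apply_of _ hj, h j hj]

theorem nPart_eq_self (u : ℕ →₀ ℤ) (h : ∀ j, Acc r j → u j = 0) : nPart r u = u := by
  ext j
  by_cases hj : Acc r j
  · rw [nPart_apply_of' _ hj, h j hj]
  · rw [nPart_apply_of _ hj]

theorem wPart_eq_zero (u : ℕ →₀ ℤ) (h : ∀ j, Acc r j → u j = 0) : wPart r u = 0 := by
  ext j
  by_cases hj : Acc r j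
  · rw [wPart_apply_of _ hj, h j hj]; rfl
  · rw [wPart_apply_of' _ hj]; rfl

theorem nPart_wPart (u : ℕ →₀ ℤ) : nPart r (wPart r u) = 0 := by
  rw [nPart_eq_zero_iff]
  intro j hj; exact wPart_apply_of' u hj

theorem nPart_nPart (u : ℕ →₀ ℤ) : nPart r (nPart r u) = nPart r u :=
  nPart_eq_self _ (fun _ hj => nPart_apply_of' u hj)

theorem top_nPart [IsStrictTotalOrder ℕ r] {w : ℕ →₀ ℤ} {t : ℕ} (h : IsTop r (nPart r w) t) :
    IsTop r w t ∧ w t = nPart r w t := by
  have hA : ¬ Acc r t := by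
    intro hA; exact h.1 (nPart_apply_of' w hA)
  have hval : w t = nPart r w t := (nPart_apply_of w hA).symm
  refine ⟨⟨by rw [hval]; exact h.1, fun j hj => ?_⟩, hval⟩
  by_cases hjA : Acc r j
  · rcases trichotomous_of r j t with h1 | h1 | h1
    · exact Or.inr h1
    · exact Or.inl h1
    · exact absurd (hjA.inv h1) hA
  · exact h.2 j (by rwa [nPart_apply_of w hjA])

theorem LX_nPart [IsStrictTotalOrder ℕ r] {σ : ℕ → ℤ} {u v : ℕ →₀ ℤ}
    (h : nPart r u ≠ nPart r v) : LX r σ u v ↔ LX r σ (nPart r u) (nPart r v) := by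
  have hne : nPart r v - nPart r u ≠ 0 := sub_ne_zero.2 h.symm
  obtain ⟨t, ht⟩ := exists_top (r := r) hne
  have ht' : IsTop r (nPart r (v - u)) t := by rwa [nPart_sub]
  obtain ⟨h1, h2⟩ := top_nPart ht'
  rw [LX_iff ht, LX_iff h1, h2, nPart_sub]

/-- the ill-founded coordinates group -/
def FN (r : ℕ → ℕ → Prop) : Type := {u : ℕ →₀ ℤ // ∀ j, Acc r j → u j = 0}

noncomputable def toFN (r : ℕ → ℕ → Prop) (u : ℕ →₀ ℤ) : FN r :=
  ⟨nPart r u, fun _ hj => nPart_apply_of' u hj⟩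

theorem toFN_eq_iff {u v : ℕ →₀ ℤ} : toFN r u = toFN r v ↔ nPart r u = nPart r v := by
  unfold toFN
  exact Subtype.mk_eq_mk

theorem toFN_val (a : FN r) : toFN r a.1 = a := by
  apply Subtype.ext
  exact nPart_eq_self _ a.2

theorem cantor [IsStrictTotalOrder ℕ r] (hr : ¬ WellFounded r) {σ : ℕ → ℤ} (hσ : ∀ t, σ t ≠ 0) :
    ∃ ψ : FN r ≃ ℚ, ∀ a b : FN r, LX r σ a.1 b.1 ↔ ψ a < ψ b := by
  classical
  have hstep : ∀ t, ¬ Acc r t → ∃ s, r s t ∧ ¬ Acc r s := by
    intro t ht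
    by_contra hcon
    push Not at hcon
    exact ht (Acc.intro t (fun y hy => hcon y hy))
  have ht0 : ∃ t, ¬ Acc r t := by
    by_contra hcon
    push Not at hcon
    exact hr ⟨hcon⟩
  obtain ⟨t0, ht0⟩ := ht0
  let R : FN r → FN r → Prop := fun a b => LX r σ a.1 b.1
  haveI : IsStrictTotalOrder (FN r) R :=
    { irrefl := fun a => LX_irrefl _
      trans := fun a b c h1 h2 => LX_trans h1 h2
      trichotomous := fun a b h1 h2 => by
        by_contra hne
        have : a.1 ≠ b.1 := fun h => hne (Subtype.ext h)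
        rcases LX_total (r := r) hσ this with h | h
        · exact h1 h
        · exact h2 h }
  letI lin : LinearOrder (FN r) := linearOrderOfSTO R
  have hlt : ∀ a b : FN r, a < b ↔ LX r σ a.1 b.1 := fun a b => Iff.rfl
  have hsq : ∀ t, 0 < σ t * σ t := fun t => mul_self_pos.2 (hσ t)
  -- adding a small positive element
  let e : (t : ℕ) → ¬ Acc r t → FN r → ℤ → FN r := fun t ht a z =>
    ⟨a.1 + Finsupp.single t z, fun j hj => by
      have hjt : j ≠ t := by rintro rfl; exact ht hj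
      rw [Finsupp.add_apply, a.2 j hj, Finsupp.single_eq_of_ne hjt, add_zero]⟩
  have he1 : ∀ t (ht : ¬ Acc r t) (a : FN r), LX r σ a.1 (e t ht a (σ t)).1 := by
    intro t ht a
    refine ⟨t, ?_, ?_⟩
    · have : (e t ht a (σ t)).1 - a.1 = Finsupp.single t (σ t) := by
        change a.1 + Finsupp.single t (σ t) - a.1 = _
        abel
      rw [this]; exact isTop_single t (hσ t)
    · have : (e t ht a (σ t)).1 - a.1 = Finsupp.single t (σ t) := by
        change a.1 + Finsupp.single t (σ t) - a.1 = _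
        abel
      rw [this, Finsupp.single_eq_same]; exact hsq t
  have he2 : ∀ t (ht : ¬ Acc r t) (a : FN r), LX r σ (e t ht a (-σ t)).1 a.1 := by
    intro t ht a
    have : a.1 - (e t ht a (-σ t)).1 = Finsupp.single t (σ t) := by
      change a.1 - (a.1 + Finsupp.single t (-σ t)) = _
      rw [Finsupp.single_neg]; abel
    refine ⟨t, ?_, ?_⟩
    · rw [this]; exact isTop_single t (hσ t)
    · rw [this, Finsupp.single_eq_same]; exact hsq t
  haveI : Countable (FN r) := by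
    unfold FN; infer_instance
  haveI : Nonempty (FN r) := ⟨⟨0, fun _ _ => rfl⟩⟩
  haveI : NoMaxOrder (FN r) := ⟨fun a => ⟨e t0 ht0 a (σ t0), (hlt _ _).2 (he1 t0 ht0 a)⟩⟩
  haveI : NoMinOrder (FN r) := ⟨fun a => ⟨e t0 ht0 a (-σ t0), (hlt _ _).2 (he2 t0 ht0 a)⟩⟩
  haveI : DenselyOrdered (FN r) := by
    refine ⟨fun a b hab => ?_⟩
    obtain ⟨t, ht, hpos⟩ := (hlt _ _).1 hab
    have htA : ¬ Acc r t := by
      intro hA
      apply ht.1
      rw [Finsupp.sub_apply, a.2 t hA, b.2 t hA, sub_zero]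
    obtain ⟨s, hst, hsA⟩ := hstep t htA
    refine ⟨e s hsA a (σ s), (hlt _ _).2 (he1 s hsA a), (hlt _ _).2 ?_⟩
    have hd : b.1 - (e s hsA a (σ s)).1 = Finsupp.single s (-σ s) + (b.1 - a.1) := by
      change b.1 - (a.1 + Finsupp.single s (σ s)) = _
      rw [Finsupp.single_neg]; abel
    have hs' : IsTop r (Finsupp.single s (-σ s)) s := isTop_single s (neg_ne_zero.2 (hσ s))
    obtain ⟨h1, h2⟩ := hs'.add_of_rel ht hst
    refine ⟨t, by rwa [hd], ?_⟩
    rw [hd, h2]; exact hpos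
  obtain ⟨ψ⟩ := Order.iso_of_countable_dense (FN r) ℚ
  exact ⟨ψ.toEquiv, fun a b => by
    rw [← hlt]
    exact ψ.lt_iff_lt.symm⟩

/-- order automorphisms of the quotient, moving points above `c` -/
theorem shiftUp [IsStrictTotalOrder ℕ r] (hr : ¬ WellFounded r) {σ : ℕ → ℤ} (hσ : ∀ t, σ t ≠ 0)
    (c a b : FN r) (ha : LX r σ c.1 a.1) (hb : LX r σ c.1 b.1) :
    ∃ φ : Equiv.Perm (FN r), (∀ u v, LX r σ (φ u).1 (φ v).1 ↔ LX r σ u.1 v.1) ∧ φ a = b ∧
      ∀ u, ¬ LX r σ c.1 u.1 → φ u = u := by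
  obtain ⟨ψ, hψ⟩ := cantor hr hσ
  obtain ⟨θ, h1, h2, h3⟩ := ratUp (ψ c) (ψ a) (ψ b) ((hψ _ _).1 ha) ((hψ _ _).1 hb)
  refine ⟨(ψ.trans θ).trans ψ.symm, ?_, ?_, ?_⟩
  · intro u v
    rw [hψ, hψ]
    simp only [Equiv.trans_apply, Equiv.apply_symm_apply]
    exact h1 _ _
  · simp only [Equiv.trans_apply, h2, Equiv.symm_apply_apply]
  · intro u hu
    rw [hψ, not_lt] at hu
    simp only [Equiv.trans_apply, h3 _ hu, Equiv.symm_apply_apply]

theorem shiftDown [IsStrictTotalOrder ℕ r] (hr : ¬ WellFounded r) {σ : ℕ → ℤ} (hσ : ∀ t, σ t ≠ 0)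
    (c a b : FN r) (ha : LX r σ a.1 c.1) (hb : LX r σ b.1 c.1) :
    ∃ φ : Equiv.Perm (FN r), (∀ u v, LX r σ (φ u).1 (φ v).1 ↔ LX r σ u.1 v.1) ∧ φ a = b ∧
      ∀ u, ¬ LX r σ u.1 c.1 → φ u = u := by
  obtain ⟨ψ, hψ⟩ := cantor hr hσ
  obtain ⟨θ, h1, h2, h3⟩ := ratDown (ψ c) (ψ a) (ψ b) ((hψ _ _).1 ha) ((hψ _ _).1 hb)
  refine ⟨(ψ.trans θ).trans ψ.symm, ?_, ?_, ?_⟩
  · intro u v
    rw [hψ, hψ]
    simp only [Equiv.trans_apply, Equiv.apply_symm_apply]
    exact h1 _ _
  · simp only [Equiv.trans_apply, h2, Equiv.symm_apply_apply]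
  · intro u hu
    rw [hψ, not_lt] at hu
    simp only [Equiv.trans_apply, h3 _ hu, Equiv.symm_apply_apply]

/-- Lifting an automorphism of the quotient, together with fibrewise translations. -/
theorem lift [IsStrictTotalOrder ℕ r] {σ : ℕ → ℤ} (φ : Equiv.Perm (FN r))
    (hφ : ∀ u v, LX r σ (φ u).1 (φ v).1 ↔ LX r σ u.1 v.1)
    (τ : FN r → (ℕ →₀ ℤ)) (hτ : ∀ a j, ¬ Acc r j → τ a j = 0) :
    ∃ g : Equiv.Perm (ℕ →₀ ℤ), (∀ u v, LX r σ (g u) (g v) ↔ LX r σ u v) ∧
      (∀ u, toFN r (g u) = φ (toFN r u)) ∧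
      (∀ u, g u = (φ (toFN r u)).1 + wPart r u + τ (toFN r u)) := by
  have hτn : ∀ a, nPart r (τ a) = 0 := fun a => (nPart_eq_zero_iff _).2 (hτ a)
  have hτw : ∀ a, wPart r (τ a) = τ a := by
    intro a
    have := nPart_add_wPart (r := r) (τ a)
    rw [hτn, zero_add] at this
    exact this
  have hn : ∀ (a : FN r) (u : ℕ →₀ ℤ) (b : FN r),
      toFN r (a.1 + wPart r u + τ b) = a := by
    intro a u b
    apply Subtype.ext
    change nPart r (a.1 + wPart r u + τ b) = a.1
    rw [nPart_add, nPart_add, nPart_wPart, hτn, nPart_eq_self _ a.2]; simp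
  have hn' : ∀ (a : FN r) (u : ℕ →₀ ℤ) (b : FN r),
      toFN r (a.1 + wPart r u - τ b) = a := by
    intro a u b
    apply Subtype.ext
    change nPart r (a.1 + wPart r u - τ b) = a.1
    rw [nPart_sub, nPart_add, nPart_wPart, hτn, nPart_eq_self _ a.2]; simp
  have hww : ∀ u, wPart r (wPart r u) = wPart r u := by
    intro u
    have := nPart_add_wPart (r := r) (wPart r u)
    rw [nPart_wPart, zero_add] at this
    exact this
  have hw : ∀ (a : FN r) (u : ℕ →₀ ℤ) (b : FN r),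
      wPart r (a.1 + wPart r u + τ b) = wPart r u + τ b := by
    intro a u b
    rw [wPart_add, wPart_add, hww, hτw, wPart_eq_zero _ a.2]; simp
  have hw' : ∀ (a : FN r) (u : ℕ →₀ ℤ) (b : FN r),
      wPart r (a.1 + wPart r u - τ b) = wPart r u - τ b := by
    intro a u b
    have h1 : a.1 + wPart r u - τ b + τ b = a.1 + wPart r u := by abel
    have h2 := congrArg (wPart r) h1
    rw [wPart_add, wPart_add, hww, hτw, wPart_eq_zero _ a.2, zero_add] at h2
    exact eq_sub_of_add_eq h2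
  let g : Equiv.Perm (ℕ →₀ ℤ) :=
    { toFun := fun u => (φ (toFN r u)).1 + wPart r u + τ (toFN r u)
      invFun := fun u => (φ.symm (toFN r u)).1 + wPart r u - τ (φ.symm (toFN r u))
      left_inv := by
        intro u
        simp only
        rw [hn, hw, Equiv.symm_apply_apply]
        change nPart r u + (wPart r u + τ (toFN r u)) - τ (toFN r u) = u
        have := nPart_add_wPart (r := r) u
        calc nPart r u + (wPart r u + τ (toFN r u)) - τ (toFN r u)
            = nPart r u + wPart r u := by abel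
          _ = u := this
      right_inv := by
        intro u
        simp only
        rw [hn', hw', Equiv.apply_symm_apply]
        have := nPart_add_wPart (r := r) u
        calc (toFN r u).1 + (wPart r u - τ (φ.symm (toFN r u))) + τ (φ.symm (toFN r u))
            = nPart r u + wPart r u := by
              change nPart r u + (wPart r u - τ (φ.symm (toFN r u))) + τ (φ.symm (toFN r u)) = _
              abel
          _ = u := this }
  have hg : ∀ u, g u = (φ (toFN r u)).1 + wPart r u + τ (toFN r u) := fun u => rfl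
  have hgn : ∀ u, toFN r (g u) = φ (toFN r u) := by
    intro u; rw [hg, hn]
  refine ⟨g, ?_, hgn, hg⟩
  intro u v
  by_cases huv : toFN r u = toFN r v
  · have h1 : g v - g u = v - u := by
      rw [hg, hg, huv]
      have h2 := nPart_add_wPart (r := r) u
      have h3 := nPart_add_wPart (r := r) v
      have h4 := toFN_eq_iff.1 huv
      calc (φ (toFN r v)).1 + wPart r v + τ (toFN r v) - ((φ (toFN r v)).1 + wPart r u + τ (toFN r v))
          = wPart r v - wPart r u := by abel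
        _ = (nPart r v + wPart r v) - (nPart r u + wPart r u) := by rw [h4]; abel
        _ = v - u := by rw [h2, h3]
    unfold LX
    rw [h1]
  · have h1 : nPart r u ≠ nPart r v := fun h => huv (toFN_eq_iff.2 h)
    have h2 : nPart r (g u) ≠ nPart r (g v) := by
      intro h
      have h3 := toFN_eq_iff.2 h
      rw [hgn, hgn] at h3
      exact huv (φ.injective h3)
    rw [LX_nPart h1, LX_nPart h2]
    have h3 := hφ (toFN r u) (toFN r v)
    rw [← hgn, ← hgn] at h3
    exact h3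

end

end Pool.Agent.Helper890.TM
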