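import Pool.Agent.Helper890.TM.Auts

set_option autoImplicit false

open Set

namespace Pool.Agent.Helper890.TM

section
variable {r : ℕ → ℕ → Prop}

theorem scattered [IsStrictTotalOrder ℕ r] (ρ : (ℕ →₀ ℤ) → (ℕ →₀ ℤ) → Prop)
    (hirr : ∀ u, nPart r u = 0 → ¬ ρ u u)
    (htr : ∀ u v w, nPart r u = 0 → nPart r v = 0 → nPart r w = 0 → ρ u v → ρ v w → ρ u w)
    (htot : ∀ u v, nPart r u = 0 → nPart r v = 0 → u ≠ v → ρ u v ∨ ρ v u)
    (hK : ∀ u v u' v' t, nPart r u = 0 → nPart r v = 0 → nPart r u' = 0 → nPart r v' = 0 →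
      IsTop r (v - u) t → IsTop r (v' - u') t → (v - u) t = (v' - u') t → ρ u v → ρ u' v')
    (T : Set (ℕ →₀ ℤ)) (L : (ℕ →₀ ℤ) → (ℕ →₀ ℤ) → Prop) (ι : (ℕ →₀ ℤ) → (ℕ →₀ ℤ))
    (hdense : ∀ a ∈ T, ∀ b ∈ T, L a b → ∃ c ∈ T, L a c ∧ L c b)
    (hι : ∀ a ∈ T, nPart r (ι a) = 0)
    (hmono : ∀ a ∈ T, ∀ b ∈ T, L a b → ρ (ι a) (ι b)) :
    ∀ a ∈ T, ∀ b ∈ T, ¬ L a b := by
  have hacc : ∀ a ∈ T, ∀ b ∈ T, ∀ t, IsTop r (ι b - ι a) t → Acc r t := by
    intro a ha b hb t ht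
    by_contra hcon
    apply ht.1
    have h1 : nPart r (ι b - ι a) = 0 := by
      rw [nPart_sub, hι a ha, hι b hb, sub_zero]
    exact (nPart_eq_zero_iff _).1 h1 t hcon
  have main : ∀ t, Acc r t → ∀ n : ℕ, ∀ a ∈ T, ∀ b ∈ T, L a b → IsTop r (ι b - ι a) t →
      ((ι b - ι a) t).natAbs = n → False := by
    intro t hta
    induction hta with
    | intro t hAcc ih =>
      intro n
      induction n using Nat.strong_induction_on with
      | _ n ihn =>
        intro a ha b hb hab htop hn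
        obtain ⟨c, hc, hac, hcb⟩ := hdense a ha b hb hab
        have hρ1 := hmono a ha c hc hac
        have hρ2 := hmono c hc b hb hcb
        have hne1 : ι c - ι a ≠ 0 := by
          intro h
          rw [sub_eq_zero] at h
          rw [h] at hρ1
          exact hirr _ (hι a ha) hρ1
        have hne2 : ι b - ι c ≠ 0 := by
          intro h
          rw [sub_eq_zero] at h
          rw [h] at hρ2
          exact hirr _ (hι c hc) hρ2
        obtain ⟨t₁, ht₁⟩ := exists_top (r := r) hne1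
        obtain ⟨t₂, ht₂⟩ := exists_top (r := r) hne2
        have hsum : ι b - ι a = (ι c - ι a) + (ι b - ι c) := by abel
        rcases trichotomous_of r t₁ t₂ with h | h | h
        · obtain ⟨h1, h2⟩ := ht₁.add_of_rel ht₂ h
          rw [← hsum] at h1
          have := htop.unique h1
          subst this
          exact ih t₁ h _ a ha c hc hac ht₁ rfl
        · subst h
          by_cases hz : (ι c - ι a) t₁ + (ι b - ι c) t₁ = 0
          · -- cancellation contradicts the direction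
            have hsw : IsTop r (ι c - ι b) t₁ := ht₂.swap
            have hv : (ι c - ι a) t₁ = (ι c - ι b) t₁ := by
              have : (ι c - ι b) t₁ = -(ι b - ι c) t₁ := by simp
              rw [this]; linarith
            have h3 := hK (ι a) (ι c) (ι b) (ι c) t₁ (hι a ha) (hι c hc) (hι b hb) (hι c hc)
              ht₁ hsw hv hρ1
            exact hirr _ (hι b hb) (htr _ _ _ (hι b hb) (hι c hc) (hι b hb) h3 hρ2)
          · have h1 := ht₁.add_of_eq ht₂ hz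
            rw [← hsum] at h1
            have := htop.unique h1
            subst this
            have hd := dir_lemma (r := r) (fun u => nPart r u = 0) ρ hirr htr htot hK t (by
              intro z
              rw [nPart_eq_zero_iff]
              intro j hj
              have hjt : j ≠ t := by
                rintro rfl; exact hj (Acc.intro j hAcc)
              exact Finsupp.single_eq_of_ne hjt)
            have hval : (ι b - ι a) t = (ι c - ι a) t + (ι b - ι c) t := by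
              rw [hsum, Finsupp.add_apply]
            have hlt : ((ι c - ι a) t).natAbs < n := by
              rw [← hn, hval]
              rcases hd with hd | hd
              · have h4 := (hd _ _ (hι a ha) (hι c hc) ht₁).1 hρ1
                have h5 := (hd _ _ (hι c hc) (hι b hb) ht₂).1 hρ2
                omega
              · have h4 := (hd _ _ (hι a ha) (hι c hc) ht₁).1 hρ1
                have h5 := (hd _ _ (hι c hc) (hι b hb) ht₂).1 hρ2
                omega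
            exact ihn _ hlt a ha c hc hac ht₁ rfl
        · obtain ⟨h1, h2⟩ := ht₂.add_of_rel ht₁ h
          rw [add_comm, ← hsum] at h1
          have := htop.unique h1
          subst this
          exact ih t₂ h _ c hc b hb hcb ht₂ rfl
  intro a ha b hb hab
  have hρ := hmono a ha b hb hab
  have hne : ι b - ι a ≠ 0 := by
    intro h
    rw [sub_eq_zero] at h
    rw [h] at hρ
    exact hirr _ (hι a ha) hρ
  obtain ⟨t, ht⟩ := exists_top (r := r) hne
  exact main t (hacc a ha b hb t ht) _ a ha b hb hab ht rfl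

theorem finalAux [IsStrictTotalOrder ℕ r] (hr : ¬ WellFounded r) {σ : ℕ → ℤ}
    (hσ : ∀ t, σ t ≠ 0) (ρ : (ℕ →₀ ℤ) → (ℕ →₀ ℤ) → Prop)
    (hirr : ∀ u ∈ CS r σ, ¬ ρ u u)
    (htr : ∀ u ∈ CS r σ, ∀ v ∈ CS r σ, ∀ w ∈ CS r σ, ρ u v → ρ v w → ρ u w)
    (htot : ∀ u ∈ CS r σ, ∀ v ∈ CS r σ, u ≠ v → ρ u v ∨ ρ v u)
    (hinv : ∀ g : Equiv.Perm (ℕ →₀ ℤ), (∀ u v, LX r σ (g u) (g v) ↔ LX r σ u v) →
      (∀ u, g u ∈ CS r σ ↔ u ∈ CS r σ) → ∀ u ∈ CS r σ, ∀ v ∈ CS r σ, ρ u v → ρ (g u) (g v))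
    (hhom : ∀ u ∈ CS r σ, ∀ v ∈ CS r σ, ∃ k : (ℕ →₀ ℤ) → (ℕ →₀ ℤ), (∀ w ∈ CS r σ, k w ∈ CS r σ) ∧
      (∀ a ∈ CS r σ, ∀ b ∈ CS r σ, ρ a b → ρ (k a) (k b)) ∧ k u = v)
    (hfin : ∀ w n, LX r σ (nPart r w) 0 → nPart r n = 0 → ρ w n) : False := by
  -- a point in a lower block
  have ht0 : ∃ t, ¬ Acc r t := by
    by_contra hcon
    push Not at hcon
    exact hr ⟨hcon⟩
  obtain ⟨t0, ht0⟩ := ht0
  have hnself : ∀ z : ℤ, nPart r (Finsupp.single t0 z) = Finsupp.single t0 z := by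
    intro z
    apply nPart_eq_self
    intro j hj
    have : j ≠ t0 := by rintro rfl; exact ht0 hj
    exact Finsupp.single_eq_of_ne this
  set w0 : ℕ →₀ ℤ := Finsupp.single t0 (-σ t0) with hw0
  have hsq : 0 < σ t0 * σ t0 := mul_self_pos.2 (hσ t0)
  have hw0neg : LX r σ (nPart r w0) 0 := by
    rw [hw0, hnself]
    refine ⟨t0, ?_, ?_⟩
    · rw [zero_sub, ← Finsupp.single_neg, neg_neg]; exact isTop_single t0 (hσ t0)
    · rw [zero_sub, ← Finsupp.single_neg, neg_neg, Finsupp.single_eq_same]; exact hsq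
  have hw0C : w0 ∈ CS r σ := mem_CS_of_neg hw0neg
  obtain ⟨k, hk1, hk2, hk3⟩ := hhom w0 hw0C 0 zero_mem_CS
  -- points above `w0` are sent to the zero block
  have hk0 : ∀ u ∈ CS r σ, ρ w0 u → nPart r (k u) = 0 := by
    intro u hu hρ
    have h1 := hk2 w0 hw0C u hu hρ
    rw [hk3] at h1
    rcases mem_CS_cases hσ (hk1 u hu) with h | h
    · exact h
    · have h2 := hfin (k u) 0 h nPart_zero
      exact absurd (htr _ zero_mem_CS _ (hk1 u hu) _ zero_mem_CS h1 h2) (hirr _ zero_mem_CS)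
  -- restricted facts on the zero block
  have hirr0 : ∀ u, nPart r u = 0 → ¬ ρ u u := fun u hu => hirr u (mem_CS_of_zero hu)
  have htr0 : ∀ u v w, nPart r u = 0 → nPart r v = 0 → nPart r w = 0 → ρ u v → ρ v w → ρ u w :=
    fun u v w hu hv hw => htr u (mem_CS_of_zero hu) v (mem_CS_of_zero hv) w (mem_CS_of_zero hw)
  have htot0 : ∀ u v, nPart r u = 0 → nPart r v = 0 → u ≠ v → ρ u v ∨ ρ v u :=
    fun u v hu hv => htot u (mem_CS_of_zero hu) v (mem_CS_of_zero hv)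
  have hK0 : ∀ u v u' v' t, nPart r u = 0 → nPart r v = 0 → nPart r u' = 0 → nPart r v' = 0 →
      IsTop r (v - u) t → IsTop r (v' - u') t → (v - u) t = (v' - u') t → ρ u v → ρ u' v' := by
    intro u v u' v' t hu hv hu' hv' h h' he hρ
    obtain ⟨g, hg1, hg2, hg3, hg4⟩ := aut_block (σ := σ) h h' he hu hv hu' hv'
    have := hinv g hg1 hg4 u (mem_CS_of_zero hu) v (mem_CS_of_zero hv) hρ
    rwa [hg2, hg3] at this
  -- a lower reference point
  set p1 : ℕ →₀ ℤ := Finsupp.single t0 (-σ t0 + -σ t0) with hp1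
  have hp1w0 : LX r σ (nPart r p1) (nPart r w0) := by
    rw [hp1, hw0, hnself, hnself]
    have : (Finsupp.single t0 (-σ t0) : ℕ →₀ ℤ) - Finsupp.single t0 (-σ t0 + -σ t0)
        = Finsupp.single t0 (σ t0) := by
      rw [← Finsupp.single_sub]; congr 1; ring
    refine ⟨t0, ?_, ?_⟩
    · rw [this]; exact isTop_single t0 (hσ t0)
    · rw [this, Finsupp.single_eq_same]; exact hsq
  have hp1C : p1 ∈ CS r σ := mem_CS_of_neg (LX_trans hp1w0 hw0neg)
  have hp1ne : p1 ≠ w0 := by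
    intro h; rw [h] at hp1w0; exact LX_irrefl _ hp1w0
  -- density of `FN`
  obtain ⟨ψ, hψ⟩ := cantor hr hσ
  have hdens : ∀ a b : ℕ →₀ ℤ, (∀ j, Acc r j → a j = 0) → (∀ j, Acc r j → b j = 0) →
      LX r σ a b → ∃ c : ℕ →₀ ℤ, (∀ j, Acc r j → c j = 0) ∧ LX r σ a c ∧ LX r σ c b := by
    intro a b ha hb hab
    have h1 := (hψ ⟨a, ha⟩ ⟨b, hb⟩).1 hab
    obtain ⟨q, hq1, hq2⟩ := exists_between h1
    refine ⟨(ψ.symm q).1, (ψ.symm q).2, ?_, ?_⟩
    · exact (hψ ⟨a, ha⟩ (ψ.symm q)).2 (by rw [Equiv.apply_symm_apply]; exact hq1)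
    · exact (hψ (ψ.symm q) ⟨b, hb⟩).2 (by rw [Equiv.apply_symm_apply]; exact hq2)
  have hw0z : ∀ j, Acc r j → w0 j = 0 := by
    intro j hj
    have : j ≠ t0 := by rintro rfl; exact ht0 hj
    exact Finsupp.single_eq_of_ne this
  have hw0self : nPart r w0 = w0 := hnself _
  rcases htot p1 hp1C w0 hw0C hp1ne with hρ | hρ
  · -- lower blocks are ordered as in `LX`
    have hord : ∀ w₁ w₂, LX r σ (nPart r w₁) (nPart r w₂) → LX r σ (nPart r w₂) 0 → ρ w₁ w₂ := by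
      intro w₁ w₂ h1 h2
      obtain ⟨g, hg1, hg2, hg3, hg4⟩ := aut_down2 hr hσ hp1w0 hw0neg h1 h2
      have := hinv g hg1 hg4 p1 hp1C w0 hw0C hρ
      rwa [hg2, hg3] at this
    -- the set of representatives strictly between `w0` and `0`
    let T : Set (ℕ →₀ ℤ) := {v | (∀ j, Acc r j → v j = 0) ∧ LX r σ w0 v ∧ LX r σ v 0}
    have hTn : ∀ v ∈ T, nPart r v = v := fun v hv => nPart_eq_self v hv.1
    have hTC : ∀ v ∈ T, v ∈ CS r σ := fun v hv => mem_CS_of_neg (by rw [hTn v hv]; exact hv.2.2)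
    have hTρ : ∀ v ∈ T, ρ w0 v := fun v hv => hord w0 v
      (by rw [hTn v hv, hw0self]; exact hv.2.1) (by rw [hTn v hv]; exact hv.2.2)
    have hsc := scattered ρ hirr0 htr0 htot0 hK0 T (LX r σ) k
      (by
        intro a ha b hb hab
        obtain ⟨c, hc1, hc2, hc3⟩ := hdens a b ha.1 hb.1 hab
        exact ⟨c, ⟨hc1, LX_trans ha.2.1 hc2, LX_trans hc3 hb.2.2⟩, hc2, hc3⟩)
      (fun a ha => hk0 a (hTC a ha) (hTρ a ha))
      (fun a ha b hb hab => hk2 a (hTC a ha) b (hTC b hb)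
        (hord a b (by rw [hTn a ha, hTn b hb]; exact hab) (by rw [hTn b hb]; exact hb.2.2)))
    obtain ⟨c, hc1, hc2, hc3⟩ := hdens w0 0 hw0z (fun _ _ => rfl) (by
      rw [← hw0self]; exact hw0neg)
    obtain ⟨d, hd1, hd2, hd3⟩ := hdens c 0 hc1 (fun _ _ => rfl) hc3
    exact hsc c ⟨hc1, hc2, hc3⟩ d ⟨hd1, LX_trans hc2 hd2, hd3⟩ hd2
  · -- lower blocks are ordered in the reverse way
    have hord : ∀ w₁ w₂, LX r σ (nPart r w₁) (nPart r w₂) → LX r σ (nPart r w₂) 0 → ρ w₂ w₁ := by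
      intro w₁ w₂ h1 h2
      obtain ⟨g, hg1, hg2, hg3, hg4⟩ := aut_down2 hr hσ hp1w0 hw0neg h1 h2
      have := hinv g hg1 hg4 w0 hw0C p1 hp1C hρ
      rwa [hg2, hg3] at this
    let T : Set (ℕ →₀ ℤ) := {v | (∀ j, Acc r j → v j = 0) ∧ LX r σ v w0}
    have hw00 : LX r σ w0 0 := by rw [← hw0self]; exact hw0neg
    have hTn : ∀ v ∈ T, nPart r v = v := fun v hv => nPart_eq_self v hv.1
    have hT0 : ∀ v ∈ T, LX r σ v 0 := fun v hv => LX_trans hv.2 hw00
    have hTC : ∀ v ∈ T, v ∈ CS r σ := fun v hv => mem_CS_of_neg (by rw [hTn v hv]; exact hT0 v hv)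
    have hTρ : ∀ v ∈ T, ρ w0 v := fun v hv => hord v w0
      (by rw [hTn v hv, hw0self]; exact hv.2) hw0neg
    have hsc := scattered ρ hirr0 htr0 htot0 hK0 T (fun a b => LX r σ b a) k
      (by
        intro a ha b hb hab
        obtain ⟨c, hc1, hc2, hc3⟩ := hdens b a hb.1 ha.1 hab
        exact ⟨c, ⟨hc1, LX_trans hc3 ha.2⟩, hc3, hc2⟩)
      (fun a ha => hk0 a (hTC a ha) (hTρ a ha))
      (fun a ha b hb hab => hk2 a (hTC a ha) b (hTC b hb)
        (hord b a (by rw [hTn a ha, hTn b hb]; exact hab) (by rw [hTn a ha]; exact hT0 a ha)))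
    have hp1self : nPart r p1 = p1 := hnself _
    have hp1w : LX r σ p1 w0 := by rw [← hp1self, ← hw0self]; exact hp1w0
    have hp1z : ∀ j, Acc r j → p1 j = 0 := by
      intro j hj
      have : j ≠ t0 := by rintro rfl; exact ht0 hj
      exact Finsupp.single_eq_of_ne this
    obtain ⟨c, hc1, hc2, hc3⟩ := hdens p1 w0 hp1z hw0z hp1w
    exact hsc c ⟨hc1, hc3⟩ p1 ⟨hp1z, hp1w⟩ hc2

theorem final [IsStrictTotalOrder ℕ r] (hr : ¬ WellFounded r) {σ : ℕ → ℤ}
    (hσ : ∀ t, σ t ≠ 0) (ρ : (ℕ →₀ ℤ) → (ℕ →₀ ℤ) → Prop)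
    (hirr : ∀ u ∈ CS r σ, ¬ ρ u u)
    (htr : ∀ u ∈ CS r σ, ∀ v ∈ CS r σ, ∀ w ∈ CS r σ, ρ u v → ρ v w → ρ u w)
    (htot : ∀ u ∈ CS r σ, ∀ v ∈ CS r σ, u ≠ v → ρ u v ∨ ρ v u)
    (hinv : ∀ g : Equiv.Perm (ℕ →₀ ℤ), (∀ u v, LX r σ (g u) (g v) ↔ LX r σ u v) →
      (∀ u, g u ∈ CS r σ ↔ u ∈ CS r σ) → ∀ u ∈ CS r σ, ∀ v ∈ CS r σ, ρ u v → ρ (g u) (g v))
    (hhom : ∀ u ∈ CS r σ, ∀ v ∈ CS r σ, ∃ k : (ℕ →₀ ℤ) → (ℕ →₀ ℤ), (∀ w ∈ CS r σ, k w ∈ CS r σ) ∧
      (∀ a ∈ CS r σ, ∀ b ∈ CS r σ, ρ a b → ρ (k a) (k b)) ∧ k u = v) : False := by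
  have ht0 : ∃ t, ¬ Acc r t := by
    by_contra hcon
    push Not at hcon
    exact hr ⟨hcon⟩
  obtain ⟨t0, ht0⟩ := ht0
  set w0 : ℕ →₀ ℤ := Finsupp.single t0 (-σ t0) with hw0
  have hsq : 0 < σ t0 * σ t0 := mul_self_pos.2 (hσ t0)
  have hnself : nPart r w0 = w0 := by
    apply nPart_eq_self
    intro j hj
    have : j ≠ t0 := by rintro rfl; exact ht0 hj
    exact Finsupp.single_eq_of_ne this
  have hw0neg : LX r σ (nPart r w0) 0 := by
    rw [hnself, hw0]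
    refine ⟨t0, ?_, ?_⟩
    · rw [zero_sub, ← Finsupp.single_neg, neg_neg]; exact isTop_single t0 (hσ t0)
    · rw [zero_sub, ← Finsupp.single_neg, neg_neg, Finsupp.single_eq_same]; exact hsq
  have hw0C : w0 ∈ CS r σ := mem_CS_of_neg hw0neg
  have hne : w0 ≠ 0 := by
    intro h
    rw [hnself, h] at hw0neg
    exact LX_irrefl _ hw0neg
  rcases htot w0 hw0C 0 zero_mem_CS hne with h | h
  · refine finalAux hr hσ ρ hirr htr htot hinv hhom ?_
    intro w n hw hn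
    obtain ⟨g, hg1, hg2, hg3, hg4⟩ := aut_down1 hr hσ hw0neg hw (n := 0) (n' := n) nPart_zero hn
    have := hinv g hg1 hg4 w0 hw0C 0 zero_mem_CS h
    rwa [hg2, hg3] at this
  · refine finalAux hr hσ (fun a b => ρ b a) hirr
      (fun u hu v hv w hw h1 h2 => htr w hw v hv u hu h2 h1)
      (fun u hu v hv huv => (htot u hu v hv huv).symm)
      (fun g hg1 hg2 u hu v hv h1 => hinv g hg1 hg2 v hv u hu h1)
      (fun u hu v hv => ?_) ?_
    · obtain ⟨k, hk1, hk2, hk3⟩ := hhom u hu v hv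
      exact ⟨k, hk1, fun a ha b hb hab => hk2 b hb a ha hab, hk3⟩
    · intro w n hw hn
      obtain ⟨g, hg1, hg2, hg3, hg4⟩ := aut_down1 hr hσ hw0neg hw (n := 0) (n' := n) nPart_zero hn
      have := hinv g hg1 hg4 0 zero_mem_CS w0 hw0C h
      rwa [hg2, hg3] at this

end

end Pool.Agent.Helper890.TM
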