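import Pool.Agent.Helper890.TM.Analytic
import Pool.Agent.Helper890.TM.Final

set_option autoImplicit false

open Set Topology MeasureTheory

namespace Pool.Agent.Helper890.TM

/-- continuity at the identity -/
theorem hid_of_joint {X : Type} [TopologicalSpace X] (a : Equiv.Perm ℕ → X → X)
    (ha1 : ∀ x, a 1 x = x)
    (hJ : @Continuous (Equiv.Perm ℕ × X) X (@instTopologicalSpaceProd _ _ permTop _) _
      (fun p => a p.1 p.2)) (z : X) (O : Set X) (hO : O ∈ 𝓝 z) :
    ∃ j : ℕ, ∃ U : Set X, IsOpen U ∧ z ∈ U ∧ ∀ g : Equiv.Perm ℕ,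
      (∀ i < j, g i = i) → ∀ u ∈ U, a g u ∈ O := by
  classical
  letI : TopologicalSpace (Equiv.Perm ℕ) := permTop
  have h1 : Filter.Tendsto (fun p : Equiv.Perm ℕ × X => a p.1 p.2) (𝓝 ((1 : Equiv.Perm ℕ), z))
      (𝓝 (a 1 z)) := hJ.tendsto ((1 : Equiv.Perm ℕ), z)
  rw [ha1] at h1
  have h2 := h1 hO
  rw [Filter.mem_map, nhds_prod_eq, Filter.mem_prod_iff] at h2
  obtain ⟨V, hV, W, hW, hVW⟩ := h2
  rw [nhds_induced, Filter.mem_comap] at hV
  obtain ⟨V', hV', hV'V⟩ := hV
  rw [nhds_pi, Filter.mem_pi] at hV'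
  obtain ⟨I, hI, s, hs, hsV⟩ := hV'
  obtain ⟨U, hUW, hU, hzU⟩ := mem_nhds_iff.1 hW
  obtain ⟨j, hj⟩ : ∃ j : ℕ, ∀ i ∈ I, i < j := by
    refine ⟨hI.toFinset.sup id + 1, fun i hi => ?_⟩
    have := Finset.le_sup (f := id) (hI.mem_toFinset.2 hi)
    exact Nat.lt_succ_of_le this
  refine ⟨j, U, hU, hzU, fun g hg u hu => ?_⟩
  have hgV : g ∈ V := by
    apply hV'V
    apply hsV
    intro i hi
    have h3 : g i = i := hg i (hj i hi)
    have h4 := mem_of_mem_nhds (hs i)
    change g i ∈ s i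
    rw [h3]
    exact h4
  exact hVW (mk_mem_prod hgV (hUW hu))

theorem core {X : Type} [TopologicalSpace X] [PolishSpace X] (a : Equiv.Perm ℕ → X → X)
    (ha1 : ∀ x, a 1 x = x)
    (hmul : ∀ g h x, a (g * h) x = a g (a h x))
    (hJ : @Continuous (Equiv.Perm ℕ × X) X (@instTopologicalSpaceProd _ _ permTop _) _
      (fun p => a p.1 p.2))
    (lt : X → ℕ → ℕ → Prop)
    (hlt : ∀ g x i j, lt (a g x) (g i) (g j) ↔ lt x i j)
    (hext : ∀ x y, (∀ i j, lt x i j ↔ lt y i j) → x = y)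
    (hirr : ∀ x i, ¬ lt x i i)
    (htr : ∀ x i j k, lt x i j → lt x j k → lt x i k)
    (htot : ∀ x i j, i ≠ j → lt x i j ∨ lt x j i)
    (hhom : ∀ x i j, ∃ g : Equiv.Perm ℕ, g i = j ∧ a g x = x)
    (E : ℕ ≃ (ℕ →₀ ℤ))
    (M1 : ∀ r : ℕ → ℕ → Prop, IsWellOrder ℕ r →
      ∃ x, ∀ i j, lt x i j ↔ LX r (fun _ => 1) (E i) (E j)) : False := by
  classical
  have hcont : ∀ g, Continuous (a g) := by
    intro g
    letI : TopologicalSpace (Equiv.Perm ℕ) := permTop
    exact hJ.comp (continuous_const.prodMk continuous_id)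
  -- lifting automorphisms
  have hlift : ∀ (r : ℕ → ℕ → Prop) (σ : ℕ → ℤ) (x : X), (∀ i j, lt x i j ↔ LX r σ (E i) (E j)) →
      ∀ g : Equiv.Perm (ℕ →₀ ℤ), (∀ u v, LX r σ (g u) (g v) ↔ LX r σ u v) →
      a ((E.trans g).trans E.symm) x = x := by
    intro r σ x hx g hg
    apply hext
    intro i j
    obtain ⟨i', rfl⟩ := ((E.trans g).trans E.symm).surjective i
    obtain ⟨j', rfl⟩ := ((E.trans g).trans E.symm).surjective j
    rw [hlt, hx, hx]
    simp only [Equiv.trans_apply, Equiv.apply_symm_apply]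
    exact (hg _ _).symm
  obtain ⟨c, hcA, hcwf⟩ := exists_not_wf (Prod.fst '' PP a E)
    ((analytic_PP a E hJ hcont).image_of_continuous continuous_fst) (by
      intro c hc
      obtain ⟨x, hx⟩ := M1 (rel c) hc
      haveI : IsStrictTotalOrder ℕ (rel c) := inferInstance
      refine ⟨(c, x), ⟨inferInstance, ?_, ?_⟩, rfl⟩
      · intro i j k l t h1 h2 h3
        obtain ⟨g, hg1, hg2, hg3, -⟩ := kshift h1 h2 h3
        refine ⟨(E.trans g).trans E.symm, hlift _ _ x hx g (LX_of_top hg1), ?_, ?_⟩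
        · simp only [Equiv.trans_apply]; rw [hg2, Equiv.symm_apply_apply]
        · simp only [Equiv.trans_apply]; rw [hg3, Equiv.symm_apply_apply]
      · intro U l ⟨b, t, hbt⟩
        have hwf : WellFounded (rel c) := hc.toIsWellFounded.wf
        obtain ⟨t0, ⟨b0, hb0⟩, hmin⟩ := hwf.has_min {t | ∃ b, Cand a E U.1 l c x b t} ⟨t, b, hbt⟩
        exact ⟨b0, t0, hb0, fun b' t' h' => hmin t' ⟨b', h'⟩⟩)
  obtain ⟨⟨c', x⟩, ⟨hsto, hc1, hc2⟩, rfl⟩ := hcA
  simp only at hsto hc1 hc2 hcwf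
  set r := rel c' with hr
  -- the order coded by `x`
  obtain ⟨σ, hσ, hxσ⟩ := eq_LX (r := r) (fun u v => lt x (E.symm u) (E.symm v))
    (fun u => hirr x _) (fun u v w => htr x _ _ _)
    (fun u v huv => htot x _ _ (fun h => huv (E.symm.injective h)))
    (by
      intro u v u' v' t h1 h2 h3 h4
      obtain ⟨g, hg1, hg2, hg3⟩ := hc1 (E.symm u) (E.symm v) (E.symm u') (E.symm v') t
        (by simpa using h1) (by simpa using h2) (by simpa using h3)
      have h5 := (hlt g x _ _).2 h4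
      rw [hg1, hg2, hg3] at h5
      exact h5)
  have hx : ∀ i j, lt x i j ↔ LX r σ (E i) (E j) := by
    intro i j
    have := hxσ (E i) (E j)
    simpa using this
  have hlx := hlift r σ x hx
  -- the set `C`
  set C : Set ℕ := {i | E i ∈ CS r σ} with hC
  have hacc : ∀ t, ¬ Acc r t → ∃ s, r s t ∧ ¬ Acc r s := by
    intro t ht
    by_contra hcon
    push Not at hcon
    exact ht (Acc.intro t fun s hs => hcon s hs)
  have ht0 : ∃ t, ¬ Acc r t := by
    by_contra hcon
    push Not at hcon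
    exact hcwf ⟨hcon⟩
  obtain ⟨t0, ht0⟩ := ht0
  have hpC : E.symm 0 ∈ C := by
    change E (E.symm 0) ∈ CS r σ
    rw [Equiv.apply_symm_apply]; exact zero_mem_CS
  have hP : ∀ l : List ℕ, l.Nodup → (∀ i ∈ l, i ∈ C) → E.symm 0 ∈ l → ∀ U, IsOpen U →
      Hit a l U x → ∃ b ∈ C, b ∉ l ∧ Hit a (l ++ [b]) U x := by
    intro l hl hlC _ U hU hHit
    obtain ⟨h, hh, hhU⟩ := hHit
    set b : ℕ := h.symm l.length with hb
    have hhb : h b = l.length := by rw [hb, Equiv.apply_symm_apply]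
    have hbl : b ∉ l := by
      intro hbl
      obtain ⟨i, hi, hib⟩ := List.mem_iff_getElem.1 hbl
      have h1 := hh i hi
      rw [hib, hhb] at h1
      omega
    have hpos : Pos h (l ++ [b]) := (pos_append_iff h l b).2 ⟨hh, hhb⟩
    by_cases hbC : b ∈ C
    · exact ⟨b, hbC, hbl, h, hpos, hhU⟩
    have hbn : LX r σ 0 (nPart r (E b)) := by
      by_contra hcon
      exact hbC hcon
    obtain ⟨V, hV, hVin, hVU⟩ :=
      (TopologicalSpace.isBasis_countableBasis X).exists_subset_of_mem_open hhU hU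
    have hcand : ∀ t, ¬ Acc r t → Cand a E V l c' x (E.symm (Finsupp.single t (σ t))) t := by
      intro t ht
      have hn : nPart r (Finsupp.single t (σ t)) = Finsupp.single t (σ t) := by
        apply nPart_eq_self
        intro j hj
        have : j ≠ t := by rintro rfl; exact ht hj
        exact Finsupp.single_eq_of_ne this
      have hpos' : LX r σ 0 (nPart r (Finsupp.single t (σ t))) := by
        rw [hn]
        refine ⟨t, ?_, ?_⟩
        · rw [sub_zero]; exact isTop_single t (hσ t)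
        · rw [sub_zero, Finsupp.single_eq_same]; exact mul_self_pos.2 (hσ t)
      have hb'C : E.symm (Finsupp.single t (σ t)) ∉ C := by
        intro hcon
        have h1 : E (E.symm (Finsupp.single t (σ t))) ∈ CS r σ := hcon
        rw [Equiv.apply_symm_apply] at h1
        exact h1 hpos'
      obtain ⟨g, hg1, hg2, hg3⟩ := aut_up hcwf hσ hbn hpos'
      set ĝ : Equiv.Perm ℕ := (E.trans g).trans E.symm with hĝ
      have hax : a ĝ x = x := hlx g hg1
      have haxi : a ĝ⁻¹ x = x := by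
        have h1 : a ĝ⁻¹ (a ĝ x) = x := by rw [← hmul, inv_mul_cancel, ha1]
        rwa [hax] at h1
      refine ⟨fun hcon => hb'C (hlC _ hcon), ⟨h * ĝ⁻¹, ?_, ?_⟩, ?_⟩
      · rw [pos_append_iff]
        constructor
        · intro i hi
          have h1 : ĝ (l[i]) = l[i] := by
            have h2 : E (l[i]) ∈ CS r σ := hlC _ (List.getElem_mem hi)
            change E.symm (g (E (l[i]))) = l[i]
            rw [hg3 _ h2, Equiv.symm_apply_apply]
          have h3 : ĝ⁻¹ (l[i]) = l[i] := by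
            rw [Equiv.Perm.inv_eq_iff_eq]; exact h1.symm
          rw [Equiv.Perm.mul_apply, h3]
          exact hh i hi
        · have h1 : ĝ b = E.symm (Finsupp.single t (σ t)) := by
            change E.symm (g (E b)) = _
            rw [hg2]
          have h3 : ĝ⁻¹ (E.symm (Finsupp.single t (σ t))) = b := by
            rw [Equiv.Perm.inv_eq_iff_eq]; exact h1.symm
          rw [Equiv.Perm.mul_apply, h3]
          exact hhb
      · rw [hmul, haxi]; exact hVin
      · rw [Equiv.apply_symm_apply]; exact isTop_single t (hσ t)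
    obtain ⟨b1, t1, hb1, hmin⟩ := hc2 ⟨V, hV⟩ l ⟨_, t0, hcand t0 ht0⟩
    have hacc1 : Acc r t1 := by
      by_contra hcon
      obtain ⟨s, hs1, hs2⟩ := hacc t1 hcon
      exact hmin _ s (hcand s hs2) hs1
    have hb1C : b1 ∈ C := by
      apply mem_CS_of_zero
      rw [nPart_eq_zero_iff]
      intro j hj
      by_contra hne
      rcases hb1.2.2.2 j hne with h1 | h1
      · subst h1; exact hj hacc1
      · exact hj (hacc1.inv h1)
    obtain ⟨h', hh', hh'V⟩ := hb1.2.1
    exact ⟨b1, hb1C, hb1.1, h', hh', hVU hh'V⟩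
  obtain ⟨f, hfinj, hfC, hfsurj, y, hy⟩ := limit a ha1 hmul hcont
    (fun z O hO => hid_of_joint a ha1 hJ z O hO) x C (E.symm 0) hpC hP
  -- the bijection with `C`
  let F : ℕ ≃ C := Equiv.ofBijective (fun i => (⟨f i, hfC i⟩ : C))
    ⟨fun i j hij => hfinj (congrArg Subtype.val hij), fun c => by
      obtain ⟨i, hi⟩ := hfsurj c.1 c.2
      exact ⟨i, Subtype.ext hi⟩⟩
  have hF : ∀ i, (F i).1 = f i := fun i => rfl
  have hFs : ∀ c : C, f (F.symm c) = c.1 := by
    intro c
    rw [← hF, Equiv.apply_symm_apply]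
  have hmemC : ∀ u, u ∈ CS r σ → E.symm u ∈ C := by
    intro u hu
    change E (E.symm u) ∈ CS r σ
    rw [Equiv.apply_symm_apply]; exact hu
  have hex : ∀ u ∈ CS r σ, ∃ i, f i = E.symm u := fun u hu => hfsurj _ (hmemC u hu)
  refine final hcwf hσ (fun u v => ∃ i j, f i = E.symm u ∧ f j = E.symm v ∧ lt y i j)
    ?_ ?_ ?_ ?_ ?_
  · rintro u hu ⟨i, j, h1, h2, h3⟩
    have : i = j := hfinj (h1.trans h2.symm)
    subst this
    exact hirr y i h3
  · rintro u hu v hv w hw ⟨i, j, h1, h2, h3⟩ ⟨j', k, h4, h5, h6⟩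
    have : j = j' := hfinj (h2.trans h4.symm)
    subst this
    exact ⟨i, k, h1, h5, htr y i j k h3 h6⟩
  · intro u hu v hv huv
    obtain ⟨i, hi⟩ := hex u hu
    obtain ⟨j, hj⟩ := hex v hv
    have hij : i ≠ j := by
      rintro rfl
      exact huv (E.symm.injective (hi.symm.trans hj))
    rcases htot y i j hij with h | h
    · exact Or.inl ⟨i, j, hi, hj, h⟩
    · exact Or.inr ⟨j, i, hj, hi, h⟩
  · rintro g hg1 hg2 u hu v hv ⟨i, j, h1, h2, h3⟩
    set ĝ : Equiv.Perm ℕ := (E.trans g).trans E.symm with hĝ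
    have hĝa : ∀ i, ĝ i = E.symm (g (E i)) := fun i => rfl
    have hax : a ĝ x = x := hlx g hg1
    have hgC : ∀ i, ĝ i ∈ C ↔ i ∈ C := by
      intro i
      change E (E.symm (g (E i))) ∈ CS r σ ↔ E i ∈ CS r σ
      rw [Equiv.apply_symm_apply]; exact hg2 _
    let g' : Equiv.Perm ℕ := (F.trans (ĝ.subtypePerm (p := fun i => i ∈ C) hgC)).trans F.symm
    have hg' : ∀ i, f (g' i) = ĝ (f i) := by
      intro i
      change f (F.symm _) = _
      rw [hFs]
      rfl
    have hay := hy ĝ hax hgC g' hg'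
    refine ⟨g' i, g' j, ?_, ?_, ?_⟩
    · rw [hg', h1, hĝa, Equiv.apply_symm_apply]
    · rw [hg', h2, hĝa, Equiv.apply_symm_apply]
    · have := (hlt g' y i j).2 h3
      rwa [hay] at this
  · intro u hu v hv
    obtain ⟨i, hi⟩ := hex u hu
    obtain ⟨j, hj⟩ := hex v hv
    obtain ⟨k0, hk1, hk2⟩ := hhom y i j
    have hk : ∀ n m, E.symm n = f m → ∀ h : E.symm n ∈ C, F.symm ⟨E.symm n, h⟩ = m := by
      intro n m hnm h
      apply hfinj
      rw [hFs]; exact hnm
    refine ⟨fun w => if h : E.symm w ∈ C then E (f (k0 (F.symm ⟨E.symm w, h⟩))) else w,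
      ?_, ?_, ?_⟩
    · intro w hw
      have h1 := hmemC w hw
      simp only [dif_pos h1]
      exact hfC _
    · rintro p hp q hq ⟨m, n, h1, h2, h3⟩
      have hp' := hmemC p hp
      have hq' := hmemC q hq
      simp only [dif_pos hp', dif_pos hq']
      rw [hk p m h1.symm hp', hk q n h2.symm hq']
      refine ⟨k0 m, k0 n, ?_, ?_, ?_⟩
      · rw [Equiv.symm_apply_apply]
      · rw [Equiv.symm_apply_apply]
      · have := (hlt k0 y m n).2 h3
        rwa [hk2] at this
    · have hu' := hmemC u hu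
      simp only [dif_pos hu']
      rw [hk u i hi.symm hu', hk1, hj, Equiv.apply_symm_apply]

end Pool.Agent.Helper890.TM
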